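import Pool.Agent.H461R2.GP.Defs

/-!
# ASSIGN: distinct new primes for the leftover positions
-/

set_option autoImplicit false

open Finset

namespace Pool.Agent.H461R2.GP

namespace ASSIGN

theorem one (k k' m : ℕ) (hm : 0 < m) (hmk : m < k' ^ 2) :
    ((Ico k' k).filter (fun i => pr i ∣ m)).card ≤ 1 := by
  rw [Finset.card_le_one]
  intro a ha b hb
  rw [Finset.mem_filter, Finset.mem_Ico] at ha hb
  by_contra hab
  have hpa : (pr a).Prime := Nat.prime_nth_prime a
  have hpb : (pr b).Prime := Nat.prime_nth_prime b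
  have hne : pr a ≠ pr b := fun h => hab (Nat.nth_injective Nat.infinite_setOfPred_prime h)
  have hcop : Nat.Coprime (pr a) (pr b) := (Nat.coprime_primes hpa hpb).2 hne
  have hdvd : pr a * pr b ∣ m := hcop.mul_dvd_of_dvd_of_dvd ha.2 hb.2
  have hle := Nat.le_of_dvd hm hdvd
  have h1 : a + 2 ≤ pr a := Nat.add_two_le_nth_prime a
  have h2 : b + 2 ≤ pr b := Nat.add_two_le_nth_prime b
  have h3 : k' ≤ pr a := by omega
  have h4 : k' ≤ pr b := by omega
  have h5 : k' * k' ≤ pr a * pr b := Nat.mul_le_mul h3 h4
  have h6 : k' ^ 2 = k' * k' := sq k'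
  omega

end ASSIGN

/-- **ASSIGN** -/
theorem t_ASSIGN : S_ASSIGN := by
  intro k k' t L hk ht
  induction L using Finset.induction_on with
  | empty =>
    intro _ _
    exact ⟨fun _ => 0, by simp, by simp⟩
  | insert j L hj ih =>
    intro hL hc
    rw [Finset.card_insert_of_notMem hj] at hc
    obtain ⟨φ, h1, h2⟩ := ih (fun i hi => hL i (Finset.mem_insert_of_mem hi)) (by omega)
    obtain ⟨hj0, hjt⟩ := hL j (Finset.mem_insert_self _ _)
    have hb1 := ASSIGN.one k k' j hj0 (by omega)
    have hb2 := ASSIGN.one k k' (t - j) (by omega) (by omega)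
    have hex : ∃ i ∈ Ico k' k, i ∉ (L.image φ) ∪ (((Ico k' k).filter (fun i => pr i ∣ j)) ∪
        ((Ico k' k).filter (fun i => pr i ∣ t - j))) := by
      apply Finset.exists_mem_notMem_of_card_lt_card
      have e1 := Finset.card_union_le (L.image φ) (((Ico k' k).filter (fun i => pr i ∣ j)) ∪
        ((Ico k' k).filter (fun i => pr i ∣ t - j)))
      have e2 := Finset.card_union_le ((Ico k' k).filter (fun i => pr i ∣ j))
        ((Ico k' k).filter (fun i => pr i ∣ t - j))
      have e3 : (L.image φ).card ≤ L.card := Finset.card_image_le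
      rw [Nat.card_Ico]
      omega
    obtain ⟨i, hi, hni⟩ := hex
    rw [Finset.mem_Ico] at hi
    have hn1 : ∀ l ∈ L, φ l ≠ i := by
      intro l hl h
      exact hni (Finset.mem_union_left _ (Finset.mem_image.2 ⟨l, hl, h⟩))
    have hn2 : ¬ pr i ∣ j := by
      intro h
      exact hni (Finset.mem_union_right _ (Finset.mem_union_left _
        (Finset.mem_filter.2 ⟨Finset.mem_Ico.2 hi, h⟩)))
    have hn3 : ¬ pr i ∣ t - j := by
      intro h
      exact hni (Finset.mem_union_right _ (Finset.mem_union_right _
        (Finset.mem_filter.2 ⟨Finset.mem_Ico.2 hi, h⟩)))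
    have hupd : ∀ l ∈ L, Function.update φ j i l = φ l := by
      intro l hl
      have hlj : l ≠ j := by
        rintro rfl
        exact hj hl
      exact Function.update_of_ne hlj _ _
    refine ⟨Function.update φ j i, ?_, ?_⟩
    · intro l hl
      rcases Finset.mem_insert.1 hl with rfl | hl
      · rw [Function.update_self]
        exact ⟨hi.1, hi.2, hn2, hn3⟩
      · rw [hupd l hl]
        exact h1 l hl
    · intro l hl l' hl' hEq
      rcases Finset.mem_insert.1 hl with h | h <;> rcases Finset.mem_insert.1 hl' with h' | h'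
      · rw [h, h']
      · rw [h, Function.update_self, hupd l' h'] at hEq
        exact absurd hEq.symm (hn1 l' h')
      · rw [h', Function.update_self, hupd l h] at hEq
        exact absurd hEq (hn1 l h)
      · rw [hupd l h, hupd l' h'] at hEq
        exact h2 l h l' h' hEq

end Pool.Agent.H461R2.GP
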