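import Pool.Agent.H461R2.GP.Defs

/-!
# AVG: averaging the number of larger prime divisors
-/

set_option autoImplicit false

open Finset

namespace Pool.Agent.H461R2.GP

private theorem AVG_count (p H a : ℕ) (hp : 0 < p) :
    ((range H).filter (fun u => p ∣ a + u)).card ≤ H / p + 1 := by
  rw [← card_range (H / p + 1)]
  apply card_le_card_of_injOn (fun u => u / p)
  · intro u hu
    have hu' := (mem_filter.mp (Finset.mem_coe.mp hu)).1
    rw [mem_range] at hu'
    show u / p ∈ ((range (H / p + 1) : Finset ℕ) : Set ℕ)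
    rw [Finset.mem_coe, mem_range]
    exact Nat.lt_succ_of_le (Nat.div_le_div_right hu'.le)
  · intro u hu v hv huv
    have h1 := (mem_filter.mp (Finset.mem_coe.mp hu)).2
    have h2 := (mem_filter.mp (Finset.mem_coe.mp hv)).2
    have h3 : u / p = v / p := huv
    have h4 : u ≡ v [MOD p] := by
      have h5 : a + u ≡ a + v [MOD p] :=
        ((Nat.modEq_zero_iff_dvd.mpr h1).trans (Nat.modEq_zero_iff_dvd.mpr h2).symm)
      exact Nat.ModEq.add_left_cancel' a h5
    have h6 : u % p = v % p := h4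
    rw [← Nat.div_add_mod u p, ← Nat.div_add_mod v p, h3, h6]

private theorem AVG_pr (i : ℕ) : i + 2 ≤ pr i := Nat.add_two_le_nth_prime i

private theorem AVG_count2 (i H a t : ℕ) :
    (((range H).filter (fun u => pr i ∣ a + u ∨ pr i ∣ a + u + t)).card : ℝ) ≤
      2 * (1 + (H : ℝ) * ((i : ℝ) + 1)⁻¹) := by
  have hp : 0 < pr i := lt_of_lt_of_le (by omega) (AVG_pr i)
  have h1 : ((range H).filter (fun u => pr i ∣ a + u ∨ pr i ∣ a + u + t)).card ≤
      (H / pr i + 1) + (H / pr i + 1) := by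
    rw [filter_or]
    refine (card_union_le _ _).trans (add_le_add (AVG_count _ _ _ hp) ?_)
    have h2 := AVG_count (pr i) H (a + t) hp
    have h3 : ((range H).filter (fun u => pr i ∣ a + u + t)) =
        ((range H).filter (fun u => pr i ∣ a + t + u)) := by
      apply filter_congr
      intro u _
      rw [add_right_comm]
    rw [h3]
    exact h2
  have h2 : ((H / pr i : ℕ) : ℝ) ≤ (H : ℝ) * ((i : ℝ) + 1)⁻¹ := by
    refine (Nat.cast_div_le).trans ?_
    rw [div_eq_mul_inv]
    apply mul_le_mul_of_nonneg_left _ (Nat.cast_nonneg _)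
    apply inv_anti₀ (by positivity)
    have h3 : ((i + 2 : ℕ) : ℝ) ≤ (pr i : ℝ) := by exact_mod_cast AVG_pr i
    push_cast at h3
    linarith
  have h3 : (((range H).filter (fun u => pr i ∣ a + u ∨ pr i ∣ a + u + t)).card : ℝ) ≤
      (((H / pr i + 1) + (H / pr i + 1) : ℕ) : ℝ) := by exact_mod_cast h1
  refine h3.trans ?_
  push_cast
  push_cast at h2
  linarith

theorem t_AVG : S_AVG := by
  intro k w H a t G hH hk hG hw
  have hGn : G.Nonempty := by
    rw [nonempty_iff_ne_empty]
    rintro rfl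
    simp at hw
    omega
  obtain ⟨u, hu, hmin⟩ := exists_min_image G
    (fun u => ((range k).filter (fun i => pr i ∣ a + u ∨ pr i ∣ a + u + t)).card) hGn
  refine ⟨u, hu, ?_⟩
  have h1 : G.card * ((range k).filter (fun i => pr i ∣ a + u ∨ pr i ∣ a + u + t)).card ≤
      ∑ v ∈ G, ((range k).filter (fun i => pr i ∣ a + v ∨ pr i ∣ a + v + t)).card := by
    rw [← smul_eq_mul]
    exact card_nsmul_le_sum _ _ _ hmin
  have h2 : ∑ v ∈ G, ((range k).filter (fun i => pr i ∣ a + v ∨ pr i ∣ a + v + t)).card =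
      ∑ i ∈ range k, (G.filter (fun v => pr i ∣ a + v ∨ pr i ∣ a + v + t)).card := by
    simp only [card_filter]
    exact sum_comm
  have h3 : ∀ i ∈ range k, (((G.filter (fun v => pr i ∣ a + v ∨ pr i ∣ a + v + t)).card : ℕ) : ℝ)
      ≤ 2 * (1 + (H : ℝ) * ((i : ℝ) + 1)⁻¹) := by
    intro i _
    refine le_trans ?_ (AVG_count2 i H a t)
    exact_mod_cast card_le_card (filter_subset_filter _ hG)
  have h4 : ((∑ v ∈ G, ((range k).filter (fun i => pr i ∣ a + v ∨ pr i ∣ a + v + t)).card : ℕ) : ℝ)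
      ≤ 2 * (k + H * (1 + Real.log k)) := by
    rw [h2]
    push_cast
    refine (sum_le_sum h3).trans ?_
    rw [← mul_sum, sum_add_distrib, ← mul_sum]
    have h5 : ∑ i ∈ range k, ((i : ℝ) + 1)⁻¹ ≤ 1 + Real.log k := by
      have h6 := harmonic_le_one_add_log k
      rw [harmonic] at h6
      push_cast at h6
      exact h6
    simp only [sum_const, card_range, nsmul_eq_mul, mul_one]
    have h7 : (H : ℝ) * ∑ i ∈ range k, ((i : ℝ) + 1)⁻¹ ≤ H * (1 + Real.log k) :=
      mul_le_mul_of_nonneg_left h5 (Nat.cast_nonneg _)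
    linarith
  have h5 : ((G.card : ℕ) : ℝ) *
      (((range k).filter (fun i => pr i ∣ a + u ∨ pr i ∣ a + u + t)).card : ℝ) ≤
      2 * (k + H * (1 + Real.log k)) := by
    refine le_trans ?_ h4
    exact_mod_cast h1
  have h6 : (H : ℝ) ≤ w * (G.card : ℝ) := by exact_mod_cast hw
  have h7 : (0 : ℝ) ≤ (((range k).filter (fun i => pr i ∣ a + u ∨ pr i ∣ a + u + t)).card : ℝ) :=
    Nat.cast_nonneg _
  have h8 := mul_le_mul_of_nonneg_left h6 h7
  have h9 := mul_le_mul_of_nonneg_left h5 (Nat.cast_nonneg w : (0 : ℝ) ≤ (w : ℝ))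
  linarith

end Pool.Agent.H461R2.GP
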