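import Pool.Agent.H461R2.GP.Defs

set_option autoImplicit false

open Finset

namespace Pool.Agent.H461R2.GP

theorem core_pr_prime (i : ℕ) : (pr i).Prime := Nat.prime_nth_prime i

theorem core_pr_ge (i : ℕ) (hi : 1 ≤ i) : 3 ≤ pr i := by
  have h0 : (pr 0).Prime := core_pr_prime 0
  have h : pr 0 < pr i := Nat.nth_strictMono Nat.infinite_setOf_prime (by omega)
  have := h0.two_le
  omega

theorem t_CORE : S_CRT → S_ASSIGN → S_LEFT → S_CORE := by
  classical
  intro hCRT hASG hLEFT k k' t z x hk hz ht4 htk hcov hbig hcard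
  obtain ⟨B, hB⟩ : ∃ B : Finset ℕ, B = (range k').filter (fun i => pr i ∣ x ∨ pr i ∣ x + t) := ⟨_, rfl⟩
  have hBmem : ∀ i, i ∈ B ↔ i < k' ∧ (pr i ∣ x ∨ pr i ∣ x + t) := by
    intro i; rw [hB, mem_filter, mem_range]
  obtain ⟨L, hL⟩ : ∃ L : Finset ℕ, L = (Ioo 0 t).filter (fun j => ∀ i < k', pr i ∣ x + j → i ∈ B) :=
    ⟨_, rfl⟩
  have hLmem : ∀ j, j ∈ L ↔ (0 < j ∧ j < t) ∧ ∀ i < k', pr i ∣ x + j → i ∈ B := by
    intro j; rw [hL, mem_filter, mem_Ioo]
  have hBz : ∀ i ∈ B, z < pr i := by
    intro i hi
    obtain ⟨h1, h2⟩ := (hBmem i).1 hi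
    exact hbig i h1 h2
  have hcard' : B.card * (t / z + 1) + 2 ≤ k - k' := by
    rw [hB]
    convert hcard using 4
  have hLcard : L.card ≤ B.card * (t / z + 1) := by
    refine le_trans (card_le_card ?_) (hLEFT B x t z (by omega) hBz)
    intro j hj
    obtain ⟨⟨h0, h1⟩, h2⟩ := (hLmem j).1 hj
    rw [mem_filter, mem_range]
    refine ⟨h1, ?_⟩
    obtain ⟨i, hi, hd⟩ := hcov j h0 h1
    exact ⟨i, h2 i hi hd, hd⟩
  obtain ⟨φ, hφ1, hφ2⟩ := hASG k k' t L hk htk (fun j hj => ((hLmem j).1 hj).1) (by omega)
  have hk'2 : 2 ≤ k' := by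
    by_contra h
    push Not at h
    interval_cases k' <;> omega
  -- the residues
  obtain ⟨r, hr⟩ : ∃ r : ℕ → ℕ, r = fun i =>
      if i < k' ∧ i ∉ B then x
      else if h : ∃ j ∈ L, φ j = i then (pr i - 1) * h.choose
      else if pr i ∣ 1 + t then 2 else 1 := ⟨_, rfl⟩
  have hr1 : ∀ i, i < k' → i ∉ B → r i = x := by
    intro i h1 h2
    rw [hr]
    simp only
    rw [if_pos ⟨h1, h2⟩]
  have hr2 : ∀ j ∈ L, r (φ j) = (pr (φ j) - 1) * j := by
    intro j hj
    have h1 : ¬ (φ j < k' ∧ φ j ∉ B) := by
      intro h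
      have := (hφ1 j hj).1
      omega
    have hex : ∃ j' ∈ L, φ j' = φ j := ⟨j, hj, rfl⟩
    rw [hr]
    simp only
    rw [if_neg h1, dif_pos hex]
    have hc := hex.choose_spec
    rw [hφ2 _ hc.1 j hj hc.2]
  have hr3 : ∀ i, ¬ (i < k' ∧ i ∉ B) → (¬ ∃ j ∈ L, φ j = i) →
      r i = if pr i ∣ 1 + t then 2 else 1 := by
    intro i h1 h2
    rw [hr]
    simp only
    rw [if_neg h1, dif_neg h2]
  apply hCRT k t r (by omega)
  · intro i hi
    by_cases h1 : i < k' ∧ i ∉ B
    · rw [hr1 i h1.1 h1.2]
      have := h1.2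
      rw [hBmem] at this
      push Not at this
      exact this h1.1
    · by_cases h2 : ∃ j ∈ L, φ j = i
      · obtain ⟨j, hj, rfl⟩ := h2
        obtain ⟨ha, hb, hc, hd⟩ := hφ1 j hj
        have hp := core_pr_prime (φ j)
        rw [hr2 j hj]
        have hjt : j < t := ((hLmem j).1 hj).1.2
        constructor
        · intro h
          rcases (Nat.Prime.dvd_mul hp).1 h with h | h
          · have := Nat.le_of_dvd (by have := hp.two_le; omega) h
            have := hp.two_le
            omega
          · exact hc h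
        · intro h
          apply hd
          have heq : (pr (φ j) - 1) * j + t = pr (φ j) * j + (t - j) := by
            have h2 := hp.one_le
            have h3 : pr (φ j) = (pr (φ j) - 1) + 1 := by omega
            have h4 : pr (φ j) * j = (pr (φ j) - 1) * j + j := by
              conv_lhs => rw [h3]
              ring
            rw [h4]
            omega
          rw [heq] at h
          exact (Nat.dvd_add_right (Dvd.intro _ rfl)).1 h
      · rw [hr3 i h1 h2]
        have hp3 : 3 ≤ pr i := by
          by_cases h3 : i ∈ B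
          · have := hBz i h3
            omega
          · have : ¬ i < k' := fun h => h1 ⟨h, h3⟩
            exact core_pr_ge i (by omega)
        split_ifs with h4
        · constructor
          · intro h
            have := Nat.le_of_dvd (by norm_num) h
            omega
          · intro h
            have h5 : pr i ∣ (2 + t) - (1 + t) := Nat.dvd_sub h h4
            have h6 : (2 + t) - (1 + t) = 1 := by omega
            rw [h6] at h5
            have := Nat.le_of_dvd (by norm_num) h5
            omega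
        · constructor
          · intro h
            have := Nat.le_of_dvd (by norm_num) h
            omega
          · exact h4
  · intro j h0 ht
    by_cases hjL : j ∈ L
    · obtain ⟨ha, hb, hc, hd⟩ := hφ1 j hjL
      refine ⟨φ j, hb, ?_⟩
      rw [hr2 j hjL]
      have hp := core_pr_prime (φ j)
      have h2 := hp.one_le
      have h4 : (pr (φ j) - 1) * j + j = pr (φ j) * j := by
        have h3 : pr (φ j) = (pr (φ j) - 1) + 1 := by omega
        conv_rhs => rw [h3]
        ring
      rw [h4]
      exact Dvd.intro _ rfl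
    · rw [hLmem] at hjL
      push Not at hjL
      obtain ⟨i, hi, hd, hnB⟩ := hjL ⟨h0, ht⟩
      refine ⟨i, by omega, ?_⟩
      rw [hr1 i hi hnB]
      exact hd

end Pool.Agent.H461R2.GP
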