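import Pool.Agent.H461R2.GP.Defs

set_option autoImplicit false

open Finset

namespace Pool.Agent.H461R2.GP

namespace CRT

theorem pr_prime (i : ℕ) : (pr i).Prime := Nat.nth_mem_of_infinite Nat.infinite_setOf_prime i

theorem pr_inj : Function.Injective pr := Nat.nth_injective Nat.infinite_setOf_prime

theorem cop_iff (k y : ℕ) : Nat.Coprime y (nk k) ↔ ∀ i < k, ¬ pr i ∣ y := by
  unfold nk
  rw [Nat.coprime_prod_right_iff]
  constructor
  · intro h i hi
    exact (Nat.Prime.coprime_iff_not_dvd (pr_prime i)).1 (h i (mem_range.2 hi)).symm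
  · intro h i hi
    exact ((Nat.Prime.coprime_iff_not_dvd (pr_prime i)).2 (h i (mem_range.1 hi))).symm

end CRT

open CRT in
theorem t_CRT : S_CRT := by
  intro k t r ht h1 h2
  obtain ⟨X, hXlt, hX⟩ : ∃ X, X < nk k ∧ ∀ i < k, X ≡ r i [MOD pr i] := by
    have hs : ∀ i ∈ range k, pr i ≠ 0 := fun i _ => (pr_prime i).ne_zero
    have pp : Set.Pairwise (range k : Set ℕ) (Function.onFun Nat.Coprime pr) := by
      intro i _ j _ hij
      exact (Nat.coprime_primes (pr_prime i) (pr_prime j)).2 (fun h => hij (pr_inj h))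
    refine ⟨(Nat.chineseRemainderOfFinset r pr (range k) hs pp : ℕ), ?_, ?_⟩
    · exact Nat.chineseRemainderOfFinset_lt_prod r pr hs pp
    · intro i hi
      exact (Nat.chineseRemainderOfFinset r pr (range k) hs pp).2 i (mem_range.2 hi)
  have hdv : ∀ i < k, ∀ j, pr i ∣ X + j ↔ pr i ∣ r i + j := fun i hi j =>
    ((hX i hi).add_right j).dvd_iff (dvd_refl _)
  have hk : 0 < k := by
    obtain ⟨i, hi, _⟩ := h2 1 one_pos (by omega)
    omega
  have hN1 : 1 < nk k := by
    have hd : pr 0 ∣ nk k := dvd_prod_of_mem pr (mem_range.2 hk)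
    have hpos : 0 < nk k := prod_pos fun i _ => (pr_prime i).pos
    exact lt_of_lt_of_le (pr_prime 0).one_lt (Nat.le_of_dvd hpos hd)
  have c0 : Nat.Coprime X (nk k) := by
    rw [cop_iff]
    intro i hi h
    have := (hdv i hi 0).1 (by simpa using h)
    exact (h1 i hi).1 (by simpa using this)
  have ct : Nat.Coprime (X + t) (nk k) := by
    rw [cop_iff]
    intro i hi h
    exact (h1 i hi).2 ((hdv i hi t).1 h)
  have cj : ∀ j, 0 < j → j < t → ¬ Nat.Coprime (X + j) (nk k) := by
    intro j hj hjt h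
    obtain ⟨i, hi, hd⟩ := h2 j hj hjt
    exact (cop_iff k _).1 h i hi ((hdv i hi j).2 hd)
  refine ⟨by omega, X, ?_, ?_, c0, ct, cj⟩
  · by_contra h
    have h0 : X = 0 := by omega
    rw [h0, Nat.coprime_zero_left] at c0
    omega
  · by_contra h
    push Not at h
    have hne : X + t ≠ nk k := by
      intro he
      rw [he, Nat.coprime_self] at ct
      omega
    obtain ⟨j, hj⟩ : ∃ j, nk k = X + j := ⟨nk k - X, by omega⟩
    have hj0 : 0 < j := by omega
    have hjt : j < t := by omega
    have e1 : ¬ (j + 1 < t) := by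
      intro h3
      apply cj (j + 1) (by omega) h3
      rw [← add_assoc, ← hj]
      simp
    have e2 : ¬ (0 < j - 1) := by
      intro h3
      apply cj (j - 1) h3 (by omega)
      have h4 : nk k = (X + (j - 1)) + 1 := by omega
      rw [h4]
      simp
    omega

end Pool.Agent.H461R2.GP
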