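import Pool.Agent.H461R2.GP.Defs

set_option autoImplicit false

open Finset

namespace Pool.Agent.H461R2.GP

theorem t_EXT : S_EXT := by
  classical
  intro k a L hL ha haL hno
  have hN : 1 ≤ nk k := by omega
  have h1 : Nat.Coprime 1 (nk k) := Nat.coprime_one_left _
  set P : ℕ → Prop := fun y => Nat.Coprime y (nk k) with hP
  have hA : P (Nat.findGreatest P a) := Nat.findGreatest_spec (P := P) ha h1
  have hA1 : 1 ≤ Nat.findGreatest P a := Nat.le_findGreatest ha h1
  have hAa : Nat.findGreatest P a ≤ a := Nat.findGreatest_le a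
  have hAg : ∀ y, Nat.findGreatest P a < y → y ≤ a → ¬ P y := fun y h2 h3 =>
    Nat.findGreatest_is_greatest h2 h3
  have hc : Nat.Coprime (nk k - 1) (nk k) := (Nat.coprime_self_sub_left hN).2 h1
  have hex : ∃ y, a + L ≤ y ∧ P y := ⟨nk k - 1, by omega, hc⟩
  have hB := Nat.find_spec hex
  have hBl : Nat.find hex ≤ nk k - 1 := Nat.find_min' hex ⟨by omega, hc⟩
  have hBm : ∀ y, y < Nat.find hex → ¬ (a + L ≤ y ∧ P y) := fun y hy => Nat.find_min hex hy
  generalize Nat.findGreatest P a = a' at hA hA1 hAa hAg
  generalize Nat.find hex = b' at hB hBl hBm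
  refine ⟨b' - a', by omega, by omega, a', hA1, by omega, hA, ?_, ?_⟩
  · have : a' + (b' - a') = b' := by omega
    rw [this]
    exact hB.2
  · intro j hj0 hjt hcop
    rcases le_or_gt (a' + j) a with h | h
    · exact hAg (a' + j) (by omega) h hcop
    · rcases lt_or_ge (a' + j) (a + L) with h' | h'
      · have h2 := hno (a' + j - a) (by omega) (by omega)
        have h3 : a + (a' + j - a) = a' + j := by omega
        rw [h3] at h2
        exact h2 hcop
      · exact hBm (a' + j) (by omega) ⟨h', hcop⟩

end Pool.Agent.H461R2.GP
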