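import Pool.Agent.H461R2.GP.Defs2

set_option autoImplicit false

open Finset Filter

namespace Pool.Agent.H461R2.GP

theorem t_FIN2 : S_FIN2 := by
  intro η hη hη2 hone hJ4 hBAD δ hδ hδη
  classical
  obtain ⟨K, hK⟩ := hone
  have hδ16 : δ ≤ 1 / 16 := by linarith
  have hηδ : 0 < η - δ := by linarith
  have ev1 : ∀ᶠ k : ℕ in atTop, 2 ≤ (k : ℝ) ^ (η - δ) :=
    ((tendsto_rpow_atTop hηδ).comp tendsto_natCast_atTop_atTop).eventually_ge_atTop _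
  obtain ⟨K₂, hK₂⟩ := eventually_atTop.mp ev1
  obtain ⟨K₁, hK₁⟩ : ∃ K₁ : ℕ, K₁ = max (max K K₂) 2 := ⟨_, rfl⟩
  have hK1a : K ≤ K₁ := by rw [hK₁]; exact (le_max_left _ _).trans (le_max_left _ _)
  have hK1b : K₂ ≤ K₁ := by rw [hK₁]; exact (le_max_right _ _).trans (le_max_left _ _)
  have hK1c : 2 ≤ K₁ := by rw [hK₁]; exact le_max_right _ _
  clear hK₁ ev1
  obtain ⟨m, hm⟩ : ∃ m : ℕ → ℝ, m = fun k => min (J k : ℝ) ((k : ℝ) ^ (1 + δ)) := ⟨_, rfl⟩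
  have hm' : ∀ k, m k = min (J k : ℝ) ((k : ℝ) ^ (1 + δ)) := fun k => by rw [hm]
  have hmono : Monotone m := by
    intro a b hab
    rw [hm', hm']
    refine min_le_min ?_ ?_
    · exact_mod_cast hJ4 hab
    · exact Real.rpow_le_rpow (Nat.cast_nonneg _) (by exact_mod_cast hab) (by linarith)
  have hm0 : ∀ k, 0 ≤ m k := fun k => by
    rw [hm']
    exact le_min (Nat.cast_nonneg _) (Real.rpow_nonneg (Nat.cast_nonneg _) _)
  have h2δ : 0 < 2 * δ := by linarith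
  have ev2 : ∀ᶠ x : ℕ in atTop, (K₁ : ℝ) + 4 ≤ (x : ℝ) ^ (2 * δ) :=
    ((tendsto_rpow_atTop h2δ).comp tendsto_natCast_atTop_atTop).eventually_ge_atTop _
  obtain ⟨X₀, hX₀⟩ := eventually_atTop.mp ev2
  refine ⟨max X₀ 1, fun x hx => ?_⟩
  have h2 := hX₀ x ((le_max_left _ _).trans hx)
  have hx1 : 1 ≤ x := (le_max_right _ _).trans hx
  have hx1' : (1 : ℝ) ≤ x := by exact_mod_cast hx1
  have hx0 : (0 : ℝ) < x := by linarith
  obtain ⟨S, hS⟩ : ∃ S : ℕ, S = ⌊(x : ℝ) ^ (1 - η)⌋₊ := ⟨_, rfl⟩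
  have hSle : (S : ℝ) ≤ (x : ℝ) ^ (1 - η) := by rw [hS]; exact Nat.floor_le (by positivity)
  obtain ⟨R, hR⟩ : ∃ R : ℕ, R = ⌊(x : ℝ) ^ (1 - 3 * δ)⌋₊ := ⟨_, rfl⟩
  have hRle : (R : ℝ) ≤ (x : ℝ) ^ (1 - 3 * δ) := by rw [hR]; exact Nat.floor_le (by positivity)
  have hMx : ∀ k, k ≤ x → m k ≤ (x : ℝ) ^ (1 + δ) := by
    intro k hk
    rw [hm']
    refine (min_le_right _ _).trans ?_
    exact Real.rpow_le_rpow (Nat.cast_nonneg _) (by exact_mod_cast hk) (by linarith)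
  obtain ⟨D, hD⟩ : ∃ D : ℝ, D = (x : ℝ) ^ (1 - 4 * δ) / 2 := ⟨_, rfl⟩
  have hD0 : 0 < D := by rw [hD]; positivity
  have hbad := hBAD m ((x : ℝ) ^ (1 + δ)) D S x hmono hm0 hMx hD0
  have hsub : (Icc 1 x).filter (fun k => (f k : ℝ) <
      min (J k : ℝ) ((k : ℝ) ^ (1 + δ)) - (k : ℝ) ^ (1 - δ)) ⊆
      ((Icc 1 K₁ ∪ Icc 1 S) ∪ Icc 1 R) ∪ (Ioc S x).filter (fun k => D < m k - m (k - S)) := by
    intro k hk
    rw [mem_filter, mem_Icc] at hk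
    obtain ⟨⟨hk1, hkx⟩, hf⟩ := hk
    rw [mem_union, mem_union, mem_union, mem_Icc, mem_Icc, mem_Icc, mem_filter, mem_Ioc]
    by_cases c1 : k ≤ K₁
    · exact Or.inl (Or.inl (Or.inl ⟨hk1, c1⟩))
    by_cases c2 : k ≤ S
    · exact Or.inl (Or.inl (Or.inr ⟨hk1, c2⟩))
    by_cases c3 : k ≤ R
    · exact Or.inl (Or.inr ⟨hk1, c3⟩)
    refine Or.inr ⟨⟨by omega, hkx⟩, ?_⟩
    by_contra hcon
    push Not at hcon
    have hk2 : 2 ≤ k := by omega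
    have hk2' : (2 : ℝ) ≤ k := by exact_mod_cast hk2
    have hk0 : (0 : ℝ) < k := by linarith
    have hone := hK k (by omega)
    have hKd := hK₂ k (by omega)
    have hkR : (x : ℝ) ^ (1 - 3 * δ) < k := by
      have h3 : R < k := by omega
      rw [hR] at h3
      exact (Nat.floor_lt (by positivity)).1 h3
    -- `D ≤ k^(1-δ)/2`
    have hDk : D ≤ (k : ℝ) ^ (1 - δ) / 2 := by
      rw [hD]
      have e1 : (x : ℝ) ^ (1 - 4 * δ) ≤ (x : ℝ) ^ ((1 - 3 * δ) * (1 - δ)) :=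
        Real.rpow_le_rpow_of_exponent_le hx1' (by nlinarith)
      have e2 : (x : ℝ) ^ ((1 - 3 * δ) * (1 - δ)) = ((x : ℝ) ^ (1 - 3 * δ)) ^ (1 - δ) :=
        Real.rpow_mul hx0.le _ _
      have e3 : ((x : ℝ) ^ (1 - 3 * δ)) ^ (1 - δ) ≤ (k : ℝ) ^ (1 - δ) :=
        Real.rpow_le_rpow (by positivity) hkR.le (by linarith)
      linarith
    obtain ⟨P, hP⟩ : ∃ P : ℝ, P = (k : ℝ) ^ (1 - η) := ⟨_, rfl⟩
    have hPk : P ≤ (k : ℝ) ^ (1 - δ) / 2 := by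
      have e1 : (k : ℝ) ^ (1 - δ) = P * (k : ℝ) ^ (η - δ) := by
        rw [hP, ← Real.rpow_add hk0]; congr 1; ring
      have hP0 : 0 < P := by rw [hP]; positivity
      rw [e1]
      nlinarith
    rw [← hP] at hone
    have hsS : ⌊P⌋₊ ≤ S := by
      rw [hS, hP]
      apply Nat.floor_le_floor
      exact Real.rpow_le_rpow hk0.le (by exact_mod_cast hkx) (by linarith)
    have hJm : (J (k - S) : ℝ) ≤ J (k - ⌊P⌋₊) := by
      exact_mod_cast hJ4 (by omega : k - S ≤ k - ⌊P⌋₊)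
    have hmJ : m (k - S) ≤ J (k - S) := by rw [hm']; exact min_le_left _ _
    rw [← hm' k] at hf
    have hmk : m k ≤ (k : ℝ) ^ (1 + η) := by
      rw [hm']
      refine (min_le_right _ _).trans ?_
      exact Real.rpow_le_rpow_of_exponent_le (by linarith) (by linarith)
    have hkd0 : 0 < (k : ℝ) ^ (1 - δ) := by positivity
    rcases min_le_iff.mp hone with h | h
    · linarith
    · linarith
  have hcard := card_le_card hsub
  have hc2 : (((Icc 1 x).filter (fun k => (f k : ℝ) <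
      min (J k : ℝ) ((k : ℝ) ^ (1 + δ)) - (k : ℝ) ^ (1 - δ))).card : ℝ) ≤
      (K₁ : ℝ) + S + R + ((Ioc S x).filter (fun k => D < m k - m (k - S))).card := by
    have e1 := card_union_le ((Icc 1 K₁ ∪ Icc 1 S) ∪ Icc 1 R)
      ((Ioc S x).filter (fun k => D < m k - m (k - S)))
    have e2 := card_union_le (Icc 1 K₁ ∪ Icc 1 S) (Icc 1 R)
    have e3 := card_union_le (Icc 1 K₁) (Icc 1 S)
    simp only [Nat.card_Icc, Nat.add_sub_cancel] at e2 e3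
    have e4 : ((Icc 1 x).filter (fun k => (f k : ℝ) <
      min (J k : ℝ) ((k : ℝ) ^ (1 + δ)) - (k : ℝ) ^ (1 - δ))).card ≤
      K₁ + S + R + ((Ioc S x).filter (fun k => D < m k - m (k - S))).card := by omega
    exact_mod_cast e4
  obtain ⟨N, hN⟩ : ∃ N : ℝ, N = (((Ioc S x).filter (fun k => D < m k - m (k - S))).card : ℝ) :=
    ⟨_, rfl⟩
  rw [← hN] at hbad hc2
  obtain ⟨Y, hY⟩ : ∃ Y : ℝ, Y = (x : ℝ) ^ (1 - 3 * δ) := ⟨_, rfl⟩
  have hY1 : 1 ≤ Y := by rw [hY]; exact Real.one_le_rpow hx1' (by linarith)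
  have hSY : (S : ℝ) ≤ Y := by
    rw [hY]
    exact hSle.trans (Real.rpow_le_rpow_of_exponent_le hx1' (by linarith))
  have hNY : N ≤ 2 * Y := by
    have e1 : N * D ≤ (x : ℝ) ^ (1 - η) * (x : ℝ) ^ (1 + δ) :=
      hbad.trans (mul_le_mul_of_nonneg_right hSle (by positivity))
    have e2 : (x : ℝ) ^ (1 - η) * (x : ℝ) ^ (1 + δ) ≤ (2 * Y) * D := by
      rw [hD, hY, ← Real.rpow_add hx0]
      have e3 : 2 * (x : ℝ) ^ (1 - 3 * δ) * ((x : ℝ) ^ (1 - 4 * δ) / 2) =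
          (x : ℝ) ^ ((1 - 3 * δ) + (1 - 4 * δ)) := by
        rw [Real.rpow_add hx0]; ring
      rw [e3]
      exact Real.rpow_le_rpow_of_exponent_le hx1' (by linarith)
    exact le_of_mul_le_mul_right (e1.trans e2) hD0
  have hxx : (x : ℝ) ^ (1 - δ) = (x : ℝ) ^ (2 * δ) * Y := by
    rw [hY, ← Real.rpow_add hx0]; congr 1; ring
  rw [hxx]
  rw [← hY] at hRle
  have hK0 : (0 : ℝ) ≤ K₁ := Nat.cast_nonneg _
  calc _ ≤ (K₁ : ℝ) + S + R + N := hc2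
    _ ≤ K₁ * Y + Y + Y + 2 * Y := by nlinarith
    _ = ((K₁ : ℝ) + 4) * Y := by ring
    _ ≤ (x : ℝ) ^ (2 * δ) * Y := mul_le_mul_of_nonneg_right h2 (by linarith)

end Pool.Agent.H461R2.GP
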