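import Pool.Agent.H461R2.GP.T_CRT

set_option autoImplicit false

open Finset

namespace Pool.Agent.H461R2.GP

theorem t_INT : S_SIEVE → S_AVG → S_CORE → S_T2 → S_J2 → S_INT := by
  rintro ⟨C, w1, hS⟩ hA hC ⟨k0, hT2⟩ hJ2
  set M : ℕ := C + 6 with hM
  have hlog : ∃ W : ℕ, ∀ w : ℕ, W ≤ w → (M : ℝ) * Real.log ((w : ℝ) + 1) ≤ w := by
    have h1 : Filter.Tendsto (fun x : ℝ => Real.log x / x) Filter.atTop (nhds 0) := by
      have := Real.isLittleO_log_id_atTop
      exact this.tendsto_div_nhds_zero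
    have h2 : ∀ᶠ x : ℝ in Filter.atTop, Real.log x / x < 1 / (2 * (M : ℝ)) := by
      apply h1.eventually_lt_const
      have : (0 : ℝ) < M := by rw [hM]; positivity
      positivity
    obtain ⟨A, hA'⟩ := Filter.eventually_atTop.1 h2
    refine ⟨⌈A⌉₊ + 1, fun w hw => ?_⟩
    have hwA : A ≤ (w : ℝ) + 1 := by
      have : (⌈A⌉₊ : ℝ) + 1 ≤ w := by exact_mod_cast hw
      linarith [Nat.le_ceil A]
    have h3 := hA' _ hwA
    have hw1 : (1 : ℝ) ≤ w := by
      have : 1 ≤ w := by omega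
      exact_mod_cast this
    have hM0 : (0 : ℝ) < M := by rw [hM]; positivity
    rw [div_lt_div_iff₀ (by linarith) (by linarith)] at h3
    nlinarith
  obtain ⟨W, hW⟩ := hlog
  refine ⟨M, w1 + k0 + W + 16, by omega, ?_⟩
  intro w hw k hk1 hk2 t ht ht2 htk htJ
  have hw16 : 16 ≤ w := by omega
  have hkw6 : w ^ 6 * w ^ C ≤ k := by
    calc w ^ 6 * w ^ C = w ^ M := by rw [hM]; ring
      _ ≤ k := hk1
  have hwC : 1 ≤ w ^ C := Nat.one_le_pow _ _ (by omega)
  have hk6 : w ^ 6 ≤ k := le_trans (Nat.le_mul_of_pos_right _ hwC) hkw6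
  have hwk : w ≤ k := le_trans (Nat.le_self_pow (by norm_num) w) hk6
  rcases Nat.lt_or_ge t 4 with h4 | h4
  · have : t = 2 := by
      obtain ⟨r, hr⟩ := ht
      omega
    subst this
    exact hT2 k (by omega)
  set s : ℕ := k / w with hs
  have hw0 : 0 < w := by omega
  have hsk : s * w ≤ k := Nat.div_mul_le_self k w
  have hks : k < (s + 1) * w := by
    have := Nat.lt_mul_div_succ k hw0
    rw [mul_comm] at this
    exact this
  have hs5 : w ^ 5 * w ^ C ≤ s := by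
    rw [hs, Nat.le_div_iff_mul_le hw0]
    calc w ^ 5 * w ^ C * w = w ^ 6 * w ^ C := by ring
      _ ≤ k := hkw6
  have hsC : w ^ C + 3 ≤ s := by
    have h5 : 16 ^ 5 ≤ w ^ 5 := Nat.pow_le_pow_left hw16 5
    have h6 : 16 ^ 5 * w ^ C ≤ w ^ 5 * w ^ C := Nat.mul_le_mul_right _ h5
    omega
  set k' : ℕ := k - s with hk'
  have hs2 : 2 * s ≤ k := by
    have : s * 16 ≤ s * w := Nat.mul_le_mul_left s hw16
    omega
  have hk'k : k ≤ 2 * k' := by omega
  have hk'2 : 2 ≤ k' := by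
    have : 16 ^ 6 ≤ w ^ 6 := Nat.pow_le_pow_left hw16 6
    omega
  set H : ℕ := s - 1 with hH
  have hHC : w ^ C ≤ H := by omega
  obtain ⟨-, a, ha1, haJ, -, -, hcov⟩ := hJ2 k' hk'2
  obtain ⟨G, hGs, hGc, hGm⟩ : ∃ G : Finset ℕ, G ⊆ range H ∧ H ≤ w * G.card ∧
      ∀ u ∈ G, ∀ p ∈ (range (w ^ 5 + 1)).filter Nat.Prime,
        ¬ p ∣ a + 1 + u ∧ ¬ p ∣ a + 1 + u + t := by
    have hG := hS w (by omega) H (a + 1) t hHC ht
    have key : ∀ (P : ℕ → Prop) (_ : DecidablePred P), H ≤ w * ((range H).filter P).card →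
        ∃ G : Finset ℕ, G ⊆ range H ∧ H ≤ w * G.card ∧ ∀ u ∈ G, P u :=
      fun P _ h => ⟨_, filter_subset _ _, h, fun u hu => (mem_filter.1 hu).2⟩
    exact key _ _ hG
  obtain ⟨u, huG0, hB⟩ := hA k' w H (a + 1) t G (by omega) (by omega) hGs hGc
  have huG : u < H ∧ ∀ p ∈ (range (w ^ 5 + 1)).filter Nat.Prime,
        ¬ p ∣ a + 1 + u ∧ ¬ p ∣ a + 1 + u + t := ⟨mem_range.1 (hGs huG0), hGm u huG0⟩
  set B := (range k').filter (fun i => pr i ∣ a + 1 + u ∨ pr i ∣ a + 1 + u + t) with hBdef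
  -- the bound for B
  have hH0 : (0 : ℝ) < H := by
    have : 0 < H := by omega
    exact_mod_cast this
  have hBc : B.card ≤ 8 * w ^ 2 := by
    have h1 : (k' : ℝ) ≤ 2 * H * w := by
      have : k' ≤ 2 * H * w := by
        have : s + 1 ≤ 2 * H := by omega
        have h3 : (s + 1) * w ≤ 2 * H * w := Nat.mul_le_mul_right w this
        omega
      exact_mod_cast this
    have h2 : Real.log k' ≤ w := by
      have h3 : (k' : ℝ) ≤ ((w : ℝ) + 1) ^ M := by
        have : k' ≤ (w + 1) ^ M := by omega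
        exact_mod_cast this
      have h4 : Real.log k' ≤ Real.log (((w : ℝ) + 1) ^ M) := by
        apply Real.log_le_log _ h3
        have : 0 < k' := by omega
        exact_mod_cast this
      rw [Real.log_pow] at h4
      exact h4.trans (hW w (by omega))
    have hw1 : (16 : ℝ) ≤ w := by exact_mod_cast hw16
    have h5 : (B.card : ℝ) * H ≤ (8 * (w : ℝ) ^ 2) * H := by
      calc (B.card : ℝ) * H ≤ 2 * w * (k' + H * (1 + Real.log k')) := hB
        _ ≤ 2 * w * (2 * H * w + H * (1 + w)) := by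
            apply mul_le_mul_of_nonneg_left _ (by positivity)
            have : (H : ℝ) * (1 + Real.log k') ≤ H * (1 + w) :=
              mul_le_mul_of_nonneg_left (by linarith) hH0.le
            linarith
        _ = (6 * (w : ℝ) ^ 2 + 2 * w) * H := by ring
        _ ≤ (8 * (w : ℝ) ^ 2) * H := by
            apply mul_le_mul_of_nonneg_right _ hH0.le
            nlinarith
    have h6 := le_of_mul_le_mul_right h5 hH0
    exact_mod_cast h6
  apply hC k k' t (w ^ 5) (a + 1 + u) (Nat.sub_le _ _)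
  · have : 16 ^ 5 ≤ w ^ 5 := Nat.pow_le_pow_left hw16 5
    omega
  · exact h4
  · have h1 : 4 * w ≤ k := by
      have h5 : 16 ^ 5 ≤ w ^ 5 := Nat.pow_le_pow_left hw16 5
      have h6 : w * 16 ^ 5 ≤ w * w ^ 5 := Nat.mul_le_mul_left w h5
      have : w ^ 6 = w * w ^ 5 := by ring
      omega
    have h2 : t * 4 ≤ k' ^ 2 * 4 := by
      calc t * 4 ≤ (k * w) * 4 := Nat.mul_le_mul_right 4 htk
        _ = k * (4 * w) := by ring
        _ ≤ k * k := Nat.mul_le_mul_left k h1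
        _ ≤ (2 * k') * (2 * k') := Nat.mul_le_mul hk'k hk'k
        _ = k' ^ 2 * 4 := by ring
    omega
  · intro j hj0 hjt
    have h1 := hcov (1 + u + j) (by omega) (by omega)
    rw [CRT.cop_iff] at h1
    push Not at h1
    obtain ⟨i, hi, hd⟩ := h1
    exact ⟨i, hi, by rwa [show a + 1 + u + j = a + (1 + u + j) by ring]⟩
  · intro i hi hor
    by_contra hlt
    push Not at hlt
    have h1 := huG.2 (pr i) (by
      rw [mem_filter, mem_range]
      exact ⟨by omega, CRT.pr_prime i⟩)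
    rcases hor with h | h
    · exact h1.1 h
    · exact h1.2 h
  · have hkk : k - k' = s := by omega
    rw [hkk]
    have hq : t / w ^ 5 ≤ k / w ^ 4 := by
      calc t / w ^ 5 ≤ (k * w) / w ^ 5 := Nat.div_le_div_right htk
        _ = k / w ^ 4 := by
          rw [show w ^ 5 = w ^ 4 * w by ring, Nat.mul_div_mul_right _ _ hw0]
    set q := k / w ^ 4 with hqdef
    have hqk : q * w ^ 4 ≤ k := Nat.div_mul_le_self _ _
    have h1 : B.card * (t / w ^ 5 + 1) + 2 ≤ 8 * w ^ 2 * (q + 1) + 2 := by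
      have := Nat.mul_le_mul hBc (Nat.add_le_add_right hq 1)
      omega
    refine h1.trans ?_
    rw [hs, Nat.le_div_iff_mul_le hw0]
    have h2 : 16 * w ^ 3 * q ≤ q * w ^ 4 := by
      have : 16 * w ^ 3 ≤ w ^ 4 := by
        calc 16 * w ^ 3 ≤ w * w ^ 3 := Nat.mul_le_mul_right _ hw16
          _ = w ^ 4 := by ring
      calc 16 * w ^ 3 * q ≤ w ^ 4 * q := Nat.mul_le_mul_right _ this
        _ = q * w ^ 4 := by ring
    have h3 : 16 * w ^ 3 + 4 * w ≤ w ^ 6 := by
      have h5 : 16 ^ 3 ≤ w ^ 3 := Nat.pow_le_pow_left hw16 3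
      have h6 : w ^ 6 = w ^ 3 * w ^ 3 := by ring
      have h7 : w ≤ w ^ 3 := Nat.le_self_pow (by norm_num) w
      have h8 : w ^ 3 * 16 ^ 3 ≤ w ^ 3 * w ^ 3 := Nat.mul_le_mul_left _ h5
      omega
    have h4 : (8 * w ^ 2 * (q + 1) + 2) * w = 8 * w ^ 3 * q + 8 * w ^ 3 + 2 * w := by ring
    rw [h4]
    have h5 : 16 * w ^ 3 * q = 2 * (8 * w ^ 3 * q) := by ring
    omega

end Pool.Agent.H461R2.GP
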