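import Pool.Agent.H461R2.GP.Defs

set_option autoImplicit false

open Finset

namespace Pool.Agent.H461R2.GP

namespace JBx

lemma pr_prime (i : ℕ) : (pr i).Prime := Nat.prime_nth_prime i

lemma nk_succ (k : ℕ) : nk (k + 1) = nk k * pr k := by
  unfold nk
  rw [Finset.prod_range_succ]

lemma nk_pos (k : ℕ) : 0 < nk k := Finset.prod_pos (fun i _ => (pr_prime i).pos)

lemma pr_dvd_nk {i k : ℕ} (h : i < k) : pr i ∣ nk k :=
  Finset.dvd_prod_of_mem _ (Finset.mem_range.mpr h)

lemma nk_lt (k : ℕ) (hk : 2 ≤ k) : k + 2 < nk k := by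
  induction k, hk using Nat.le_induction with
  | base =>
    rw [nk_succ, nk_succ]
    have h0 : nk 0 = 1 := by simp [nk]
    have h1 : 2 ≤ pr 0 := (pr_prime 0).two_le
    have h2 : 3 ≤ pr 1 := Nat.add_two_le_nth_prime 1
    rw [h0]
    nlinarith
  | succ k hk ih =>
    rw [nk_succ]
    have h2 : 2 ≤ pr k := (pr_prime k).two_le
    nlinarith

lemma exists_pr {q k : ℕ} (hq : q.Prime) (h : q < pr k) : ∃ i < k, pr i = q := by
  refine ⟨Nat.count Nat.Prime q, ?_, Nat.nth_count hq⟩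
  have h1 : Nat.nth Nat.Prime (Nat.count Nat.Prime q) = q := Nat.nth_count hq
  have h2 : Nat.nth Nat.Prime (Nat.count Nat.Prime q) < Nat.nth Nat.Prime k := by
    rw [h1]; exact h
  exact (Nat.nth_lt_nth Nat.infinite_setOf_prime).mp h2

lemma not_coprime_of_dvd {q m n : ℕ} (hq : q.Prime) (h1 : q ∣ m) (h2 : q ∣ n) :
    ¬ Nat.Coprime m n := Nat.not_coprime_of_dvd_of_dvd hq.one_lt h1 h2

lemma gap_lt {k t : ℕ} (h : IsGap k t) : t < nk k := by
  obtain ⟨-, a, -, h2, -⟩ := h
  omega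

lemma bdd (k : ℕ) : BddAbove {t | IsGap k t} := ⟨nk k, fun _ ht => (gap_lt ht).le⟩

end JBx

open JBx

theorem t_J1 : S_J1 := fun k _ ht => le_csSup (bdd k) ht

theorem t_J2 : S_EXT → S_J2 := by
  intro hE k hk
  have h := nk_lt k hk
  obtain ⟨t, -, ht⟩ := hE k 1 1 one_pos le_rfl (by omega) (fun j h1 h2 => by omega)
  exact Nat.sSup_mem ⟨t, ht⟩ (bdd k)

theorem t_J3 : S_EXT → S_J3 := by
  intro hE k hk
  have h := nk_lt k hk
  obtain ⟨t, ht1, ht⟩ := hE k 1 (k + 1) (by omega) le_rfl (by omega) (by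
    intro j h1 h2
    have hne : 1 + j ≠ 1 := by omega
    obtain ⟨q, hq, hqd⟩ := Nat.exists_prime_and_dvd hne
    have hle : q ≤ 1 + j := Nat.le_of_dvd (by omega) hqd
    have h3 : k + 2 ≤ pr k := Nat.add_two_le_nth_prime k
    obtain ⟨i, hi, hiq⟩ := exists_pr (k := k) hq (by omega)
    refine not_coprime_of_dvd hq hqd ?_
    rw [← hiq]
    exact pr_dvd_nk hi)
  exact ht1.trans (t_J1 k t ht)

theorem t_J4 : S_EXT → S_J4 := by
  intro hE
  apply monotone_nat_of_le_succ
  intro k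
  rcases lt_or_ge k 2 with hk | hk
  · have h0 : {t | IsGap k t} = ∅ := by
      ext t
      simp only [Set.mem_setOf_eq, Set.mem_empty_iff_false, iff_false]
      intro ht
      obtain ⟨ht0, a, ha, h2, -⟩ := ht
      have h3 : nk k ≤ 2 := by
        interval_cases k
        · simp [nk]
        · simp only [nk, Finset.prod_range_one]
          unfold pr
          rw [Nat.nth_prime_zero_eq_two]
      omega
    have h1 : J k = 0 := by
      unfold J
      rw [h0]
      simp
    rw [h1]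
    exact Nat.zero_le _
  · obtain ⟨hpos, a, ha, h2, h3, h4, h5⟩ := t_J2 hE k hk
    have h6 : nk k ≤ nk (k + 1) := by
      rw [nk_succ]
      exact Nat.le_mul_of_pos_right _ (pr_prime k).pos
    obtain ⟨t, ht1, ht⟩ := hE (k + 1) a (J k) hpos ha (by omega) (by
      intro j hj1 hj2 hc
      apply h5 j hj1 hj2
      rw [nk_succ] at hc
      exact Nat.Coprime.coprime_mul_right_right hc)
    exact ht1.trans (t_J1 (k + 1) t ht)

theorem t_F1 : S_F1 := by
  intro k m h
  have hne : {t | 0 < t ∧ Even t ∧ ¬ IsGap k t}.Nonempty := by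
    refine ⟨2 * nk k, ?_, even_two_mul _, ?_⟩
    · have := nk_pos k
      omega
    · intro hg
      have h1 := gap_lt hg
      omega
  have hmem := Nat.sInf_mem hne
  obtain ⟨h1, h2, h3⟩ := hmem
  by_contra hc
  push Not at hc
  apply h3
  apply h _ h2 _ hc
  obtain ⟨r, hr⟩ := h2
  omega

end Pool.Agent.H461R2.GP
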