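import Pool.Agent.H461R2.GP.Defs

set_option autoImplicit false

namespace Pool.Agent.H461R2.GP

open Finset

theorem LEFT_aux (p x t : ℕ) (hp : 0 < p) :
    ((range t).filter (fun j => p ∣ x + j)).card ≤ t / p + 1 := by
  have h : ((range t).filter (fun j => p ∣ x + j)).card ≤ (range (t / p + 1)).card := by
    apply Finset.card_le_card_of_injOn (fun j => j / p)
    · intro j hj
      have hj' := Finset.mem_filter.1 (Finset.mem_coe.1 hj)
      have h1 : j / p ≤ t / p := Nat.div_le_div_right (mem_range.1 hj'.1).le
      exact Finset.mem_coe.2 (mem_range.2 (Nat.lt_succ_of_le h1))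
    · intro j hj j' hj' h
      have hj := (Finset.mem_filter.1 (Finset.mem_coe.1 hj)).2
      have hj' := (Finset.mem_filter.1 (Finset.mem_coe.1 hj')).2
      simp only at h
      have h3 : (x + j) % p = (x + j') % p := by
        rw [Nat.mod_eq_zero_of_dvd hj, Nat.mod_eq_zero_of_dvd hj']
      have h4 : j % p = j' % p := by
        have : x + j ≡ x + j' [MOD p] := h3
        exact Nat.ModEq.add_left_cancel' x this
      rw [← Nat.div_add_mod j p, ← Nat.div_add_mod j' p, h, h4]
  rwa [card_range] at h

theorem t_LEFT : S_LEFT := by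
  classical
  intro B x t z hz hB
  have h1 : (range t).filter (fun j => ∃ i ∈ B, pr i ∣ x + j) ⊆
      B.biUnion (fun i => (range t).filter (fun j => pr i ∣ x + j)) := by
    intro j hj
    obtain ⟨hj1, i, hi, hij⟩ := Finset.mem_filter.1 hj
    exact Finset.mem_biUnion.2 ⟨i, hi, Finset.mem_filter.2 ⟨hj1, hij⟩⟩
  refine (Finset.card_le_card h1).trans (Finset.card_biUnion_le_card_mul _ _ _ fun i hi => ?_)
  have hp := hB i hi
  refine (LEFT_aux (pr i) x t (by omega)).trans ?_
  have : t / pr i ≤ t / z := Nat.div_le_div_left hp.le hz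
  omega

end Pool.Agent.H461R2.GP
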