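import Pool.Agent.H461R2.GP.Defs

/-!
Project GP, task REAL: from integer exponents to real exponents.
-/

set_option autoImplicit false

open Finset

namespace Pool.Agent.H461R2.GP

theorem REAL_pow (k M : ℕ) (hM : M ≠ 0) : ((k : ℝ) ^ ((1 : ℝ) / M)) ^ M = k := by
  rw [← Real.rpow_natCast, ← Real.rpow_mul (Nat.cast_nonneg k)]
  have : (1 : ℝ) / M * M = 1 := by
    have : (M : ℝ) ≠ 0 := by exact_mod_cast hM
    field_simp
  rw [this, Real.rpow_one]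

theorem t_REAL : S_REAL := by
  intro hInt hJ4 hF1
  obtain ⟨M, w₀, hM2, hI⟩ := hInt
  have hM0 : M ≠ 0 := by omega
  have hMr : (2 : ℝ) ≤ M := by exact_mod_cast hM2
  have hMpos : (0 : ℝ) < M := by linarith
  refine ⟨1 / (2 * M), by positivity, ?_, ?_⟩
  · apply one_div_le_one_div_of_le (by norm_num) (by linarith)
  intro δ hδ hδ1
  refine ⟨max (w₀ ^ M) (4 ^ M), ?_⟩
  intro k hk
  have hk1 : w₀ ^ M ≤ k := le_trans (le_max_left _ _) hk
  have hk2 : 4 ^ M ≤ k := le_trans (le_max_right _ _) hk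
  have hkpos : 0 < k := lt_of_lt_of_le (by positivity) hk2
  have hk0 : (0 : ℝ) < k := by exact_mod_cast hkpos
  have hk1r : (1 : ℝ) ≤ k := by exact_mod_cast hkpos
  set q : ℝ := (k : ℝ) ^ ((1 : ℝ) / M) with hq
  have hq0 : 0 ≤ q := by positivity
  have hqM : q ^ M = k := REAL_pow k M hM0
  set w : ℕ := ⌊q⌋₊ with hw
  have hwq : (w : ℝ) ≤ q := Nat.floor_le hq0
  have hqw : q < (w : ℝ) + 1 := Nat.lt_floor_add_one q
  have hwM : w ^ M ≤ k := by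
    have : (w : ℝ) ^ M ≤ k := by
      rw [← hqM]
      exact pow_le_pow_left₀ (Nat.cast_nonneg w) hwq M
    exact_mod_cast this
  have hwM1 : k < (w + 1) ^ M := by
    have : (k : ℝ) < ((w : ℝ) + 1) ^ M := by
      rw [← hqM]
      exact pow_lt_pow_left₀ hqw hq0 hM0
    exact_mod_cast this
  have hw0 : w₀ ≤ w := by
    apply Nat.le_floor
    by_contra hlt
    push Not at hlt
    have h1 : q ^ M < (w₀ : ℝ) ^ M := pow_lt_pow_left₀ hlt hq0 hM0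
    rw [hqM] at h1
    have h2 : ((w₀ : ℝ)) ^ M ≤ k := by exact_mod_cast hk1
    linarith
  -- r = k ^ (1/(2M))
  set r : ℝ := (k : ℝ) ^ ((1 : ℝ) / (2 * M)) with hr
  have hr2 : r ^ 2 = q := by
    rw [hr, hq, ← Real.rpow_natCast, ← Real.rpow_mul hk0.le]
    congr 1
    push_cast
    field_simp
  have hr0 : 0 ≤ r := by positivity
  have hr2' : 2 ≤ r := by
    by_contra hlt
    push Not at hlt
    have h1 : r ^ 2 < 2 ^ 2 := pow_lt_pow_left₀ hlt hr0 two_ne_zero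
    rw [hr2] at h1
    have h2 : q ^ M < ((2 : ℝ) ^ 2) ^ M := pow_lt_pow_left₀ h1 hq0 hM0
    rw [hqM] at h2
    have h3 : ((4 : ℝ)) ^ M ≤ k := by exact_mod_cast hk2
    norm_num at h2
    linarith
  have hkr : (k : ℝ) ^ δ ≤ r := Real.rpow_le_rpow_of_exponent_le hk1r hδ1
  have hkw : (k : ℝ) ^ δ ≤ w := by
    have : r + 1 ≤ q := by
      rw [← hr2]
      nlinarith
    linarith
  have hkδ : 0 < (k : ℝ) ^ δ := by positivity
  have hwpos : (0 : ℝ) < w := lt_of_lt_of_le hkδ hkw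
  have e1 : (k : ℝ) ^ (1 + δ) ≤ k * w := by
    rw [Real.rpow_add hk0, Real.rpow_one]
    gcongr
  have e2 : ((k / w : ℕ) : ℝ) ≤ (k : ℝ) ^ (1 - δ) := by
    calc ((k / w : ℕ) : ℝ) ≤ (k : ℝ) / w := Nat.cast_div_le
      _ ≤ (k : ℝ) / (k : ℝ) ^ δ := by gcongr
      _ = (k : ℝ) ^ (1 - δ) := by rw [Real.rpow_sub hk0, Real.rpow_one]
  have e3 : k / w ≤ ⌊(k : ℝ) ^ (1 - δ)⌋₊ := Nat.le_floor e2
  have e4 : J (k - ⌊(k : ℝ) ^ (1 - δ)⌋₊) ≤ J (k - k / w) := hJ4 (by omega)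
  set X : ℝ := min ((J (k - ⌊(k : ℝ) ^ (1 - δ)⌋₊) : ℝ) - (k : ℝ) ^ (1 - δ)) ((k : ℝ) ^ (1 + δ))
    with hX
  have key : ⌈X⌉₊ ≤ f k := by
    apply hF1
    intro t ht ht2 htm
    have htX : (t : ℝ) < X := Nat.lt_ceil.mp htm
    have h1 : (t : ℝ) < (J (k - ⌊(k : ℝ) ^ (1 - δ)⌋₊) : ℝ) - (k : ℝ) ^ (1 - δ) :=
      lt_of_lt_of_le htX (min_le_left _ _)
    have h2 : (t : ℝ) < (k : ℝ) ^ (1 + δ) := lt_of_lt_of_le htX (min_le_right _ _)
    refine hI w hw0 k hwM hwM1 t ht ht2 ?_ ?_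
    · have : (t : ℝ) ≤ (k : ℝ) * w := by linarith
      exact_mod_cast this
    · have h3 : (J (k - ⌊(k : ℝ) ^ (1 - δ)⌋₊) : ℝ) ≤ J (k - k / w) := by exact_mod_cast e4
      have : (t : ℝ) + ((k / w : ℕ) : ℝ) ≤ J (k - k / w) := by linarith
      exact_mod_cast this
  calc X ≤ (⌈X⌉₊ : ℝ) := Nat.le_ceil X
    _ ≤ (f k : ℝ) := by exact_mod_cast key

end Pool.Agent.H461R2.GP
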