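import Pool.Agent.H461R2.GP.Defs

/-!
# The gap 2
-/

set_option autoImplicit false

open Finset

namespace Pool.Agent.H461R2.GP

namespace T2aux

theorem pr_prime (i : ℕ) : (pr i).Prime := Nat.prime_nth_prime i

theorem pr_inj {i j : ℕ} (h : pr i = pr j) : i = j :=
  Nat.nth_injective Nat.infinite_setOfPred_prime h

theorem cop (m : ℕ) : Nat.Coprime (nk m) (pr m) := by
  unfold nk
  apply Nat.Coprime.prod_left
  intro i hi
  rw [Finset.mem_range] at hi
  exact (Nat.coprime_primes (pr_prime i) (pr_prime m)).2 (fun h => by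
    have := pr_inj h
    omega)

theorem nk_succ (m : ℕ) : nk (m + 1) = nk m * pr m := by
  unfold nk
  rw [Finset.prod_range_succ]

theorem cop_succ {a n : ℕ} (h : n ∣ a + 1) : Nat.Coprime a n := by
  have h1 : Nat.gcd a n ∣ 1 := by
    have h2 : Nat.gcd a n ∣ a + 1 := (Nat.gcd_dvd_right a n).trans h
    exact (Nat.dvd_add_right (Nat.gcd_dvd_left a n)).1 h2
  exact Nat.dvd_one.1 h1

theorem cop_pred {a n : ℕ} (h : n ∣ a) : Nat.Coprime (a + 1) n := by
  have h1 : Nat.gcd (a + 1) n ∣ 1 := by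
    have h2 : Nat.gcd (a + 1) n ∣ a := (Nat.gcd_dvd_right (a + 1) n).trans h
    exact (Nat.dvd_add_right h2).1 (Nat.gcd_dvd_left (a + 1) n)
  exact Nat.dvd_one.1 h1

end T2aux

open T2aux in
theorem t_T2 : S_T2 := by
  refine ⟨4, fun k hk => ?_⟩
  obtain ⟨m, rfl⟩ : ∃ m, k = m + 1 := ⟨k - 1, by omega⟩
  have hm : 3 ≤ m := by omega
  have hp := pr_prime m
  have hp5 : 5 ≤ pr m := by
    have := Nat.add_two_le_nth_prime m
    unfold pr
    omega
  have hnk0 : 0 < nk m := Finset.prod_pos fun i _ => (pr_prime i).pos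
  have hnk1 : 1 < nk m := by
    have h2 : pr 0 ∣ nk m := Finset.dvd_prod_of_mem pr (Finset.mem_range.2 (by omega))
    exact lt_of_lt_of_le (pr_prime 0).one_lt (Nat.le_of_dvd hnk0 h2)
  obtain ⟨X, hX1, hX2, hXlt⟩ : ∃ X : ℕ, nk m ∣ X + 1 ∧ X % pr m = 1 ∧ X < nk m * pr m := by
    let Y := Nat.chineseRemainder (cop m) (nk m - 1) 1
    refine ⟨(Y : ℕ), ?_, ?_, Nat.chineseRemainder_lt_mul (cop m) _ _ hnk0.ne' hp.ne_zero⟩
    · have h1 : (Y : ℕ) ≡ nk m - 1 [MOD nk m] := Y.2.1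
      have h2 : (Y : ℕ) + 1 ≡ nk m - 1 + 1 [MOD nk m] := h1.add_right 1
      rw [Nat.sub_add_cancel hnk0] at h2
      exact (Nat.modEq_zero_iff_dvd.1 (h2.trans (by simp [Nat.ModEq])))
    · have h1 : (Y : ℕ) ≡ 1 [MOD pr m] := Y.2.2
      have h2 : (Y : ℕ) % pr m = 1 % pr m := h1
      rw [h2, Nat.mod_eq_of_lt (by omega)]
  have e1 : (X + 1) % pr m = 2 := by
    rw [Nat.add_mod, hX2, Nat.mod_eq_of_lt (by omega : 1 < pr m), Nat.mod_eq_of_lt (by omega)]
  have e2 : (X + 2) % pr m = 3 := by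
    rw [Nat.add_mod, hX2, Nat.mod_eq_of_lt (by omega : 2 < pr m), Nat.mod_eq_of_lt (by omega)]
  have n0 : ¬ pr m ∣ X := fun h => by
    have := Nat.mod_eq_zero_of_dvd h
    omega
  have n1 : ¬ pr m ∣ X + 1 := fun h => by
    have := Nat.mod_eq_zero_of_dvd h
    omega
  have n2 : ¬ pr m ∣ X + 2 := fun h => by
    have := Nat.mod_eq_zero_of_dvd h
    omega
  have hn : pr m ∣ nk m * pr m := Dvd.intro_left _ rfl
  rw [show (m + 1) = m + 1 from rfl]
  refine ⟨by norm_num, X, ?_, ?_, ?_, ?_, ?_⟩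
  · rcases Nat.eq_zero_or_pos X with h | h
    · rw [h] at n0
      exact absurd (dvd_zero _) n0
    · exact h
  · rw [nk_succ]
    have h1 : X + 1 ≠ nk m * pr m := fun h => n1 (by rw [h]; exact hn)
    have h2 : X + 2 ≠ nk m * pr m := fun h => n2 (by rw [h]; exact hn)
    omega
  · rw [nk_succ]
    exact Nat.Coprime.mul_right (cop_succ hX1) ((hp.coprime_iff_not_dvd.2 n0).symm)
  · rw [nk_succ]
    exact Nat.Coprime.mul_right (cop_pred hX1) ((hp.coprime_iff_not_dvd.2 n2).symm)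
  · intro j hj0 hj2
    have hj : j = 1 := by omega
    rw [hj, nk_succ]
    intro hc
    have h3 := Nat.Coprime.eq_one_of_dvd (Nat.Coprime.coprime_mul_right_right hc).symm hX1
    omega

end Pool.Agent.H461R2.GP
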