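import Pool.Agent.H461R2.GP.T_SIEVE
import Pool.Agent.H461R2.GP.T_AVG
import Pool.Agent.H461R2.GP.T_CRT
import Pool.Agent.H461R2.GP.T_ASSIGN
import Pool.Agent.H461R2.GP.T_LEFT
import Pool.Agent.H461R2.GP.T_CORE
import Pool.Agent.H461R2.GP.T_T2
import Pool.Agent.H461R2.GP.T_EXT
import Pool.Agent.H461R2.GP.T_JB
import Pool.Agent.H461R2.GP.T_INT
import Pool.Agent.H461R2.GP.T_REAL
import Pool.Agent.H461R2.GP.T_BAD2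
import Pool.Agent.H461R2.GP.T_FIN2

/-!
# Gaps between consecutive integers coprime to a primorial: assembly
-/

set_option autoImplicit false

open Finset

namespace Pool.Agent.H461R2.GP

theorem int : S_INT :=
  t_INT t_SIEVE t_AVG (t_CORE t_CRT t_ASSIGN t_LEFT) t_T2 (t_J2 t_EXT)

theorem one : ∃ δ₀ : ℝ, 0 < δ₀ ∧ δ₀ ≤ 1 / 2 ∧ ∀ δ : ℝ, 0 < δ → δ ≤ δ₀ → S_ONE δ :=
  t_REAL int (t_J4 t_EXT) t_F1

theorem one_alm : ∃ δ₀ : ℝ, 0 < δ₀ ∧ δ₀ ≤ 1 / 2 ∧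
    ∀ δ : ℝ, 0 < δ → δ ≤ δ₀ → S_ONE δ ∧ S_ALM δ := by
  obtain ⟨η, h0, h1, h2⟩ := one
  refine ⟨η / 8, by linarith, by linarith, fun δ hδ hδ' => ⟨h2 δ hδ (by linarith), ?_⟩⟩
  exact t_FIN2 η h0 h1 (h2 η h0 le_rfl) (t_J4 t_EXT) t_BAD2 δ hδ hδ'

end Pool.Agent.H461R2.GP
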