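import Pool.Agent.H461R2.GP.All

/-!
# Number of distinct gaps between consecutive integers coprime to a primorial
-/

set_option autoImplicit false

open Finset

namespace Pool.Agent.H461R2.GP

/-- the number of distinct gaps -/
noncomputable def gc (k : ℕ) : ℕ := {t | IsGap k t}.ncard

theorem gap_lt {k t : ℕ} (h : IsGap k t) : t < nk k := by
  obtain ⟨-, a, -, h2, -⟩ := h
  omega

theorem gap_finite (k : ℕ) : {t | IsGap k t}.Finite :=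
  (Set.finite_lt_nat (nk k)).subset fun _ ht => gap_lt ht

theorem gap_of_lt_f {k t : ℕ} (h0 : 0 < t) (he : Even t) (h : t < f k) : IsGap k t := by
  by_contra hn
  have : f k ≤ t := Nat.sInf_le (⟨h0, he, hn⟩ : t ∈ {t | 0 < t ∧ Even t ∧ ¬ IsGap k t})
  omega

theorem f_le_gc (k : ℕ) : f k ≤ 2 * gc k + 2 := by
  classical
  have h1 : ((Ico 1 (f k)).filter Even : Finset ℕ).card ≤ gc k := by
    have hsub : (((Ico 1 (f k)).filter Even : Finset ℕ) : Set ℕ) ⊆ {t | IsGap k t} := by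
      intro t ht
      rw [mem_coe, mem_filter, mem_Ico] at ht
      exact gap_of_lt_f (by omega) ht.2 ht.1.2
    have := Set.ncard_le_ncard hsub (gap_finite k)
    rwa [Set.ncard_coe_finset] at this
  have h2 : (range ((f k - 1) / 2)).card ≤ ((Ico 1 (f k)).filter Even : Finset ℕ).card := by
    apply card_le_card_of_injOn (fun i => 2 * i + 2)
    · intro i hi
      simp only [coe_range, Set.mem_Iio] at hi
      simp only [coe_filter, Set.mem_setOf_eq, mem_Ico]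
      refine ⟨⟨by omega, by omega⟩, ⟨i + 1, by ring⟩⟩
    · intro i _ j _ hij
      simp only at hij
      omega
  rw [card_range] at h2
  omega

open Filter in
theorem ev_pow (δ₁ δ : ℝ) (h : δ < δ₁) (h0 : 0 < δ) (h1 : δ₁ ≤ 1 / 2) : ∃ K : ℕ, ∀ k : ℕ, K ≤ k →
    (k : ℝ) ^ (1 - δ₁) + 2 ≤ (k : ℝ) ^ (1 - δ) ∧ (k : ℝ) ^ (1 + δ) + 2 ≤ (k : ℝ) ^ (1 + δ₁) := by
  have hd : 0 < δ₁ - δ := by linarith
  have e1 : ∀ᶠ k : ℕ in atTop, (3 : ℝ) ≤ (k : ℝ) ^ (δ₁ - δ) :=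
    ((tendsto_rpow_atTop hd).comp tendsto_natCast_atTop_atTop).eventually_ge_atTop _
  obtain ⟨K, hK⟩ := eventually_atTop.1 (e1.and (eventually_ge_atTop 1))
  refine ⟨K, fun k hk => ?_⟩
  obtain ⟨h3, hk1⟩ := hK k hk
  have hk1' : (1 : ℝ) ≤ k := by exact_mod_cast hk1
  have hk0 : (0 : ℝ) < k := by linarith
  constructor
  · have e : (k : ℝ) ^ (1 - δ) = (k : ℝ) ^ (1 - δ₁) * (k : ℝ) ^ (δ₁ - δ) := by
      rw [← Real.rpow_add hk0]; congr 1; ring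
    have g1 : (1 : ℝ) ≤ (k : ℝ) ^ (1 - δ₁) := Real.one_le_rpow hk1' (by linarith)
    rw [e]
    nlinarith
  · have e : (k : ℝ) ^ (1 + δ₁) = (k : ℝ) ^ (1 + δ) * (k : ℝ) ^ (δ₁ - δ) := by
      rw [← Real.rpow_add hk0]; congr 1; ring
    have g1 : (1 : ℝ) ≤ (k : ℝ) ^ (1 + δ) := Real.one_le_rpow hk1' (by linarith)
    rw [e]
    nlinarith

open Filter in
theorem cnt : ∃ δ : ℝ, 0 < δ ∧ δ < 1 ∧
    (∃ K : ℕ, ∀ k ≥ K,
      min ((J (k - ⌊(k : ℝ) ^ (1 - δ)⌋₊) : ℝ) - (k : ℝ) ^ (1 - δ)) ((k : ℝ) ^ (1 + δ)) ≤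
        2 * (gc k : ℝ)) ∧
    (∃ X : ℕ, ∀ x ≥ X,
      ((((Icc 1 x).filter (fun k => 2 * (gc k : ℝ) <
        min (J k : ℝ) ((k : ℝ) ^ (1 + δ)) - (k : ℝ) ^ (1 - δ))).card : ℕ) : ℝ) ≤
        (x : ℝ) ^ (1 - δ)) := by
  obtain ⟨δ₁, h0, h1, h2⟩ := one_alm
  obtain ⟨⟨K₁, hK₁⟩, ⟨X₁, hX₁⟩⟩ := h2 δ₁ h0 le_rfl
  obtain ⟨K₂, hK₂⟩ := ev_pow δ₁ (δ₁ / 2) (by linarith) (by linarith) h1
  refine ⟨δ₁ / 2, by linarith, by linarith, ⟨K₁ + K₂, fun k hk => ?_⟩, ?_⟩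
  · obtain ⟨g1, g2⟩ := hK₂ k (by omega)
    have g3 := hK₁ k (by omega)
    have g4 : (f k : ℝ) ≤ 2 * gc k + 2 := by exact_mod_cast f_le_gc k
    have g5 : J (k - ⌊(k : ℝ) ^ (1 - δ₁ / 2)⌋₊) ≤ J (k - ⌊(k : ℝ) ^ (1 - δ₁)⌋₊) := by
      apply t_J4 t_EXT
      apply Nat.sub_le_sub_left
      exact Nat.floor_le_floor (by linarith)
    have g6 : (J (k - ⌊(k : ℝ) ^ (1 - δ₁ / 2)⌋₊) : ℝ) ≤ J (k - ⌊(k : ℝ) ^ (1 - δ₁)⌋₊) := by
      exact_mod_cast g5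
    rcases min_cases ((J (k - ⌊(k : ℝ) ^ (1 - δ₁)⌋₊) : ℝ) - (k : ℝ) ^ (1 - δ₁))
      ((k : ℝ) ^ (1 + δ₁)) with ⟨g7, _⟩ | ⟨g7, _⟩
    · rw [g7] at g3
      exact (min_le_left _ _).trans (by linarith)
    · rw [g7] at g3
      exact (min_le_right _ _).trans (by linarith)
  · have e1 : ∀ᶠ x : ℕ in atTop, (K₂ : ℝ) + 1 ≤ (x : ℝ) ^ (δ₁ / 2) :=
      ((tendsto_rpow_atTop (by linarith)).comp tendsto_natCast_atTop_atTop).eventually_ge_atTop _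
    obtain ⟨X₂, hX₂⟩ := eventually_atTop.1 (e1.and (eventually_ge_atTop 1))
    refine ⟨X₁ + X₂, fun x hx => ?_⟩
    obtain ⟨g1, hx1⟩ := hX₂ x (by omega)
    have g2 := hX₁ x (by omega)
    have hx1' : (1 : ℝ) ≤ x := by exact_mod_cast hx1
    have hx0 : (0 : ℝ) < x := by linarith
    have hsub : (Icc 1 x).filter (fun k => 2 * (gc k : ℝ) <
        min (J k : ℝ) ((k : ℝ) ^ (1 + δ₁ / 2)) - (k : ℝ) ^ (1 - δ₁ / 2)) ⊆
        (Icc 1 x).filter (fun k => (f k : ℝ) <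
          min (J k : ℝ) ((k : ℝ) ^ (1 + δ₁)) - (k : ℝ) ^ (1 - δ₁)) ∪ Icc 1 K₂ := by
      intro k hk
      rw [mem_filter] at hk
      rw [mem_union, mem_filter, mem_Icc, mem_Icc]
      rcases Nat.lt_or_ge K₂ k with hk2 | hk2
      · left
        refine ⟨mem_Icc.1 hk.1, ?_⟩
        obtain ⟨g3, g4⟩ := hK₂ k hk2.le
        have g5 : (f k : ℝ) ≤ 2 * gc k + 2 := by exact_mod_cast f_le_gc k
        have g6 := hk.2
        have g7 : min (J k : ℝ) ((k : ℝ) ^ (1 + δ₁ / 2)) ≤ min (J k : ℝ) ((k : ℝ) ^ (1 + δ₁)) :=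
          min_le_min le_rfl (by linarith)
        linarith
      · right
        exact ⟨(mem_Icc.1 hk.1).1, hk2⟩
    have g3 := (card_le_card hsub).trans (card_union_le _ _)
    rw [Nat.card_Icc] at g3
    have g4 : ((((Icc 1 x).filter (fun k => 2 * (gc k : ℝ) <
        min (J k : ℝ) ((k : ℝ) ^ (1 + δ₁ / 2)) - (k : ℝ) ^ (1 - δ₁ / 2))).card : ℕ) : ℝ) ≤
        (x : ℝ) ^ (1 - δ₁) + K₂ := by
      have : ((((Icc 1 x).filter (fun k => 2 * (gc k : ℝ) <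
        min (J k : ℝ) ((k : ℝ) ^ (1 + δ₁ / 2)) - (k : ℝ) ^ (1 - δ₁ / 2))).card : ℕ) : ℝ) ≤
        (((Icc 1 x).filter (fun k => (f k : ℝ) <
          min (J k : ℝ) ((k : ℝ) ^ (1 + δ₁)) - (k : ℝ) ^ (1 - δ₁))).card : ℝ) + K₂ := by
        have h5 : K₂ + 1 - 1 = K₂ := by omega
        rw [h5] at g3
        exact_mod_cast g3
      linarith
    refine g4.trans ?_
    have e : (x : ℝ) ^ (1 - δ₁ / 2) = (x : ℝ) ^ (1 - δ₁) * (x : ℝ) ^ (δ₁ / 2) := by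
      rw [← Real.rpow_add hx0]; congr 1; ring
    have g5 : (1 : ℝ) ≤ (x : ℝ) ^ (1 - δ₁) := Real.one_le_rpow hx1' (by linarith)
    have g6 : (0 : ℝ) ≤ K₂ := Nat.cast_nonneg _
    rw [e]
    nlinarith

end Pool.Agent.H461R2.GP
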