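import Mathlib

/-!
# Gaps between consecutive integers coprime to a primorial: interface
-/

set_option autoImplicit false

open Finset

namespace Pool.Agent.H461R2.GP

/-- the `i`-th prime (`pr 0 = 2`) -/
noncomputable def pr (i : ℕ) : ℕ := Nat.nth Nat.Prime i

/-- the product of the first `k` primes -/
noncomputable def nk (k : ℕ) : ℕ := ∏ i ∈ range k, pr i

/-- `t` is a gap between two consecutive integers of `[1, nk k)` coprime to `nk k` -/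
def IsGap (k t : ℕ) : Prop := 0 < t ∧ ∃ a, 1 ≤ a ∧ a + t < nk k ∧ Nat.Coprime a (nk k) ∧
  Nat.Coprime (a + t) (nk k) ∧ ∀ j, 0 < j → j < t → ¬ Nat.Coprime (a + j) (nk k)

/-- the largest gap -/
noncomputable def J (k : ℕ) : ℕ := sSup {t | IsGap k t}

/-- the least positive even integer that is not a gap -/
noncomputable def f (k : ℕ) : ℕ := sInf {t | 0 < t ∧ Even t ∧ ¬ IsGap k t}

open Classical in
/-- SIEVE: lower bound sieve for pairs `a+u`, `a+u+t` (from `Pool.Agent.H141R2.FS.wbhk`) -/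
def S_SIEVE : Prop := ∃ C w₀ : ℕ, ∀ w ≥ w₀, ∀ H a t : ℕ, w ^ C ≤ H → Even t →
  H ≤ w * ((range H).filter (fun u => ∀ p ∈ (range (w ^ 5 + 1)).filter Nat.Prime,
    ¬ p ∣ a + u ∧ ¬ p ∣ a + u + t)).card

/-- AVG: averaging the number of larger prime divisors -/
def S_AVG : Prop := ∀ (k w H a t : ℕ) (G : Finset ℕ), 0 < H → 0 < k → G ⊆ range H →
  H ≤ w * G.card →
  ∃ u ∈ G, (((range k).filter (fun i => pr i ∣ a + u ∨ pr i ∣ a + u + t)).card : ℝ) * H ≤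
    2 * w * (k + H * (1 + Real.log k))

/-- CRT: residues to a gap -/
def S_CRT : Prop := ∀ (k t : ℕ) (r : ℕ → ℕ), 3 ≤ t →
  (∀ i < k, ¬ pr i ∣ r i ∧ ¬ pr i ∣ r i + t) →
  (∀ j, 0 < j → j < t → ∃ i < k, pr i ∣ r i + j) → IsGap k t

/-- ASSIGN: distinct new primes for the leftover positions -/
def S_ASSIGN : Prop := ∀ (k k' t : ℕ) (L : Finset ℕ), k' ≤ k → t ≤ k' ^ 2 →
  (∀ j ∈ L, 0 < j ∧ j < t) → L.card + 2 ≤ k - k' →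
  ∃ φ : ℕ → ℕ, (∀ j ∈ L, k' ≤ φ j ∧ φ j < k ∧ ¬ pr (φ j) ∣ j ∧ ¬ pr (φ j) ∣ t - j) ∧
    ∀ j ∈ L, ∀ j' ∈ L, φ j = φ j' → j = j'

/-- LEFT: positions in `(0,t)` hit by few large primes -/
def S_LEFT : Prop := ∀ (B : Finset ℕ) (x t z : ℕ), 0 < z → (∀ i ∈ B, z < pr i) →
  ((range t).filter (fun j => ∃ i ∈ B, pr i ∣ x + j)).card ≤ B.card * (t / z + 1)

/-- CORE -/
def S_CORE : Prop := ∀ (k k' t z x : ℕ), k' ≤ k → 2 ≤ z → 4 ≤ t → t ≤ k' ^ 2 →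
  (∀ j, 0 < j → j < t → ∃ i < k', pr i ∣ x + j) →
  (∀ i < k', (pr i ∣ x ∨ pr i ∣ x + t) → z < pr i) →
  ((range k').filter (fun i => pr i ∣ x ∨ pr i ∣ x + t)).card * (t / z + 1) + 2 ≤ k - k' →
  IsGap k t

/-- T2: the gap 2 -/
def S_T2 : Prop := ∃ k₀ : ℕ, ∀ k ≥ k₀, IsGap k 2

/-- EXT: a run of non-coprime integers lies inside a gap -/
def S_EXT : Prop := ∀ k a L : ℕ, 0 < L → 1 ≤ a → a + L < nk k →
  (∀ j, 0 < j → j < L → ¬ Nat.Coprime (a + j) (nk k)) → ∃ t, L ≤ t ∧ IsGap k t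

/-- JB: basic facts on `J` and `f` -/
def S_J1 : Prop := ∀ k t, IsGap k t → t ≤ J k
def S_J2 : Prop := ∀ k, 2 ≤ k → IsGap k (J k)
def S_J3 : Prop := ∀ k, 2 ≤ k → k + 1 ≤ J k
def S_J4 : Prop := Monotone J
def S_F1 : Prop := ∀ k m, (∀ t, Even t → 2 ≤ t → t < m → IsGap k t) → m ≤ f k

/-- INT: the main theorem in integer form -/
def S_INT : Prop := ∃ M w₀ : ℕ, 2 ≤ M ∧ ∀ w ≥ w₀, ∀ k, w ^ M ≤ k → k < (w + 1) ^ M →
  ∀ t, Even t → 2 ≤ t → t ≤ k * w → t + k / w ≤ J (k - k / w) → IsGap k t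

/-- ONE: the first part of the final theorem -/
def S_ONE (δ : ℝ) : Prop := ∃ K : ℕ, ∀ k ≥ K,
  min ((J (k - ⌊(k : ℝ) ^ (1 - δ)⌋₊) : ℝ) - (k : ℝ) ^ (1 - δ)) ((k : ℝ) ^ (1 + δ)) ≤ f k

/-- REAL: from integer exponents to real exponents -/
def S_REAL : Prop := S_INT → S_J4 → S_F1 → ∃ δ₀ : ℝ, 0 < δ₀ ∧ δ₀ ≤ 1 / 2 ∧
  ∀ δ : ℝ, 0 < δ → δ ≤ δ₀ → S_ONE δ

/-- BAD: a bounded monotone function rarely grows fast -/
def S_BAD : Prop := ∀ (m : ℕ → ℝ) (Mx q : ℝ) (S x : ℕ), Monotone m → (∀ k, 1 ≤ k → 1 ≤ m k) →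
  (∀ k, k ≤ x → m k ≤ Mx) → 0 < q → q < 1 → 1 ≤ S → 1 ≤ x →
  (((Ioc S x).filter (fun k => m (k - S) < q * m k)).card : ℝ) ≤
    S * (Real.log Mx / Real.log (1 / q) + 1)

/-- TWO: the second part of the final theorem -/
def S_TWO (δ : ℝ) : Prop := ∀ ε : ℝ, 0 < ε → ∃ X : ℕ, ∀ x ≥ X,
  ((((Icc 1 x).filter (fun k => (f k : ℝ) < (1 - ε) * min (J k : ℝ) ((k : ℝ) ^ (1 + δ)))).card : ℕ) : ℝ)
    ≤ (x : ℝ) ^ (1 - δ / 2)

/-- FIN -/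
def S_FIN : Prop := ∀ δ : ℝ, 0 < δ → δ ≤ 1 / 2 → S_ONE δ → S_J3 → S_J4 → S_BAD → S_TWO δ

end Pool.Agent.H461R2.GP
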