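import Pool.Agent.H461R2.GP.Defs

/-!
# Gaps between consecutive integers coprime to a primorial: second interface
-/

set_option autoImplicit false

open Finset

namespace Pool.Agent.H461R2.GP

/-- BAD2: a bounded monotone function rarely has a large increment -/
def S_BAD2 : Prop := ∀ (m : ℕ → ℝ) (Mx D : ℝ) (S x : ℕ), Monotone m → (∀ k, 0 ≤ m k) →
  (∀ k, k ≤ x → m k ≤ Mx) → 0 < D →
  (((Ioc S x).filter (fun k => D < m k - m (k - S))).card : ℝ) * D ≤ S * Mx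

/-- ALMOST: for all `k ≤ x` with few exceptions, `f k ≥ min (J k) (k^(1+δ)) - k^(1-δ)` -/
def S_ALM (δ : ℝ) : Prop := ∃ X : ℕ, ∀ x ≥ X,
  ((((Icc 1 x).filter (fun k => (f k : ℝ) <
    min (J k : ℝ) ((k : ℝ) ^ (1 + δ)) - (k : ℝ) ^ (1 - δ))).card : ℕ) : ℝ)
    ≤ (x : ℝ) ^ (1 - δ)

/-- FIN2 -/
def S_FIN2 : Prop := ∀ η : ℝ, 0 < η → η ≤ 1 / 2 → S_ONE η → S_J4 → S_BAD2 →
  ∀ δ : ℝ, 0 < δ → δ ≤ η / 8 → S_ALM δ

end Pool.Agent.H461R2.GP
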