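import Pool.Agent.H461R2.GP.Defs2

set_option autoImplicit false

open Finset

namespace Pool.Agent.H461R2.GP

theorem BAD2_sum (m : ℕ → ℝ) (h0 : ∀ k, 0 ≤ m k) (S n : ℕ) :
    ∑ k ∈ Ioc S (S + n), (m k - m (k - S)) ≤ ∑ k ∈ Ioc n (S + n), m k := by
  induction n with
  | zero =>
    rw [add_zero, Ioc_self, sum_empty]
    exact sum_nonneg fun k _ => h0 k
  | succ n ih =>
    rw [← add_assoc, sum_Ioc_succ_top (by omega)]
    have h1 : ∑ k ∈ Ioc n (S + n + 1), m k = ∑ k ∈ Ioc n (S + n), m k + m (S + n + 1) :=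
      sum_Ioc_succ_top (by omega) m
    have h2 : ∑ k ∈ Ioc n (S + n + 1), m k = m (n + 1) + ∑ k ∈ Ioc (n + 1) (S + n + 1), m k := by
      rw [← sum_Ioc_consecutive m (Nat.le_succ n) (by omega : n + 1 ≤ S + n + 1)]
      congr 1
      rw [sum_Ioc_succ_top le_rfl, Ioc_self, sum_empty, zero_add]
    have h3 : S + n + 1 - S = n + 1 := by omega
    rw [h3]
    linarith

theorem t_BAD2 : S_BAD2 := by
  intro m Mx D S x hm h0 hM hD
  have hMx : 0 ≤ Mx := (h0 0).trans (hM 0 (Nat.zero_le x))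
  rcases Nat.lt_or_ge x S with hx | hx
  · rw [Ioc_eq_empty (by omega), filter_empty, card_empty, Nat.cast_zero, zero_mul]
    positivity
  · obtain ⟨n, rfl⟩ := Nat.exists_eq_add_of_le hx
    calc (((Ioc S (S + n)).filter (fun k => D < m k - m (k - S))).card : ℝ) * D
        = ∑ k ∈ (Ioc S (S + n)).filter (fun k => D < m k - m (k - S)), D := by
          rw [sum_const, nsmul_eq_mul]
      _ ≤ ∑ k ∈ (Ioc S (S + n)).filter (fun k => D < m k - m (k - S)), (m k - m (k - S)) :=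
          sum_le_sum fun k hk => (mem_filter.1 hk).2.le
      _ ≤ ∑ k ∈ Ioc S (S + n), (m k - m (k - S)) :=
          sum_le_sum_of_subset_of_nonneg (filter_subset _ _) fun k _ _ =>
            sub_nonneg.2 (hm (Nat.sub_le k S))
      _ ≤ ∑ k ∈ Ioc n (S + n), m k := BAD2_sum m h0 S n
      _ ≤ ∑ k ∈ Ioc n (S + n), Mx := sum_le_sum fun k hk => hM k (mem_Ioc.1 hk).2
      _ = S * Mx := by
          rw [sum_const, Nat.card_Ioc, nsmul_eq_mul, Nat.add_sub_cancel]

end Pool.Agent.H461R2.GP
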