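import Pool.Agent.H461R2.GP.Defs
import Pool.Agent.H141R2.FS.WB
import Pool.Agent.H410R2.EDSieve
import Pool.Agent.H483R2.ED_CountCRT

/-!
# SIEVE: lower bound sieve for pairs `a + u`, `a + u + t`
-/

set_option autoImplicit false

open Finset

namespace Pool.Agent.H461R2.GP

namespace SIEVEaux

open Pool.Agent.H410R2.ED (Pr CountCRT)
open Pool.Agent.H410R2.ED.T6

/-- the residue modulo 6 -/
theorem exists_r0 (a t : ℕ) (ht : Even t) : ∃ r0 < 6, Nat.Coprime 6 (a + r0) ∧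
    Nat.Coprime 6 (a + r0 + t) := by
  obtain ⟨s, rfl⟩ := ht
  have key : ∀ x y : ℕ, Nat.Coprime 6 (x % 6) ↔ Nat.Coprime 6 x := by
    intro x _
    rw [Nat.coprime_comm, Nat.coprime_comm (m := x)]
    unfold Nat.Coprime
    rw [← Nat.gcd_rec, Nat.gcd_comm]
  have h1 : ∀ x : Fin 6, ∀ y : Fin 3, ∃ r0 < 6, Nat.Coprime 6 ((x.val + r0) % 6) ∧
      Nat.Coprime 6 ((x.val + r0 + (y.val + y.val)) % 6) := by decide
  obtain ⟨r0, hr0, h2, h3⟩ := h1 ⟨a % 6, Nat.mod_lt _ (by norm_num)⟩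
    ⟨s % 3, Nat.mod_lt _ (by norm_num)⟩
  refine ⟨r0, hr0, ?_, ?_⟩
  · rw [← key _ 0]
    have : (a + r0) % 6 = (a % 6 + r0) % 6 := by omega
    rw [this]
    exact h2
  · rw [← key _ 0]
    have : (a + r0 + (s + s)) % 6 = (a % 6 + r0 + (s % 3 + s % 3)) % 6 := by omega
    rw [this]
    exact h3

/-- `2 ^ (2 ^ (J - 1))` beats exponentials -/
theorem big_J (v : ℝ) (hv : 0 < v) : ∃ J0 : ℕ, ∀ J ≥ J0, 1 ≤ J →
    (48 : ℝ) ^ 5 ≤ (v ^ 5) ^ J * 2 ^ 2 ^ (J - 1) := by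
  obtain ⟨m, hm⟩ := pow_unbounded_of_one_lt ((v ^ 5)⁻¹) (one_lt_two)
  refine ⟨2 * (2 * m + 28) + 2, fun J hJ hJ1 => ?_⟩
  have hA : 0 < v ^ 5 := by positivity
  have h1 : m * J + 28 ≤ 2 ^ (J - 1) := by
    obtain ⟨y, hy⟩ : ∃ y, y = (J - 1) / 2 := ⟨_, rfl⟩
    have h2 : 2 * y ≤ J - 1 := by omega
    have h3 : J ≤ 2 * (y + 1) := by omega
    have h4 : 2 * m + 28 ≤ y + 1 := by omega
    have h5 : y + 1 ≤ 2 ^ y := Nat.lt_two_pow_self
    calc m * J + 28 ≤ m * (2 * (y + 1)) + 28 * (y + 1) := by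
          have := Nat.mul_le_mul_left m h3
          omega
      _ = (2 * m + 28) * (y + 1) := by ring
      _ ≤ (y + 1) * (y + 1) := Nat.mul_le_mul_right _ h4
      _ ≤ 2 ^ y * 2 ^ y := Nat.mul_le_mul h5 h5
      _ = 2 ^ (2 * y) := by rw [← pow_add]; congr 1; ring
      _ ≤ 2 ^ (J - 1) := Nat.pow_le_pow_right (by norm_num) h2
  have h6 : (48 : ℝ) ^ 5 ≤ 2 ^ 28 := by norm_num
  have h7 : (1 : ℝ) ≤ (v ^ 5) ^ J * (2 ^ m) ^ J := by
    rw [← mul_pow]
    apply one_le_pow₀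
    have : v ^ 5 * (v ^ 5)⁻¹ = 1 := mul_inv_cancel₀ hA.ne'
    rw [← this]
    exact mul_le_mul_of_nonneg_left hm.le hA.le
  calc (48 : ℝ) ^ 5 ≤ 1 * 2 ^ 28 := by rw [one_mul]; exact h6
    _ ≤ ((v ^ 5) ^ J * (2 ^ m) ^ J) * 2 ^ 28 := mul_le_mul_of_nonneg_right h7 (by positivity)
    _ = (v ^ 5) ^ J * 2 ^ (m * J + 28) := by rw [pow_add, pow_mul]; ring
    _ ≤ (v ^ 5) ^ J * 2 ^ 2 ^ (J - 1) :=
      mul_le_mul_of_nonneg_left (pow_le_pow_right₀ (by norm_num) h1) (by positivity)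

/-- the sum of the errors -/
theorem err_sum (P : Finset ℕ) (hP : ∀ l ∈ P, l.Prime) (B : ℕ) :
    ∑ D ∈ P.powerset.filter (fun D => ∏ l ∈ D, l ≤ B), (2 : ℝ) ^ D.card ≤ (B : ℝ) * B := by
  have h1 : ∀ D ∈ P.powerset.filter (fun D => ∏ l ∈ D, l ≤ B), (2 : ℝ) ^ D.card ≤ B := by
    intro D hD
    rw [mem_filter, mem_powerset] at hD
    have h2 : 2 ^ D.card ≤ ∏ l ∈ D, l := by
      rw [← prod_const]
      exact prod_le_prod' fun l hl => (hP l (hD.1 hl)).two_le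
    exact_mod_cast h2.trans hD.2
  have h3 : (P.powerset.filter (fun D => ∏ l ∈ D, l ≤ B)).card ≤ B := by
    have h4 : (P.powerset.filter (fun D => ∏ l ∈ D, l ≤ B)).card ≤ (Icc 1 B).card := by
      refine card_le_card_of_injOn (fun D => ∏ l ∈ D, l) ?_ ?_
      · intro D hD
        rw [mem_coe, mem_filter, mem_powerset] at hD
        rw [mem_coe, mem_Icc]
        exact ⟨Finset.prod_pos fun l hl => (hP l (hD.1 hl)).pos, hD.2⟩
      · intro D hD D' hD' h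
        rw [mem_coe, mem_filter, mem_powerset] at hD hD'
        have e1 := Nat.primeFactors_prod fun l hl => hP l (hD.1 hl)
        have e2 := Nat.primeFactors_prod fun l hl => hP l (hD'.1 hl)
        rw [← e1, ← e2]
        exact congrArg _ h
    simpa using h4
  calc _ ≤ ∑ _D ∈ P.powerset.filter (fun D => ∏ l ∈ D, l ≤ B), (B : ℝ) := sum_le_sum h1
    _ = (P.powerset.filter (fun D => ∏ l ∈ D, l ≤ B)).card * (B : ℝ) := by
      rw [sum_const, nsmul_eq_mul]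
    _ ≤ (B : ℝ) * B := mul_le_mul_of_nonneg_right (by exact_mod_cast h3) (Nat.cast_nonneg _)

/-- choice of `J` -/
theorem choose_J (w : ℕ) (hw : 2 ≤ w) : ∃ J : ℕ, 1 ≤ J ∧ w ^ 5 < 2 ^ 2 ^ J ∧
    2 ^ 2 ^ (J - 1) ≤ w ^ 5 := by
  have hex : ∃ J : ℕ, w ^ 5 < 2 ^ 2 ^ J := by
    refine ⟨w ^ 5, ?_⟩
    calc w ^ 5 < 2 ^ w ^ 5 := Nat.lt_two_pow_self
      _ ≤ 2 ^ 2 ^ w ^ 5 := Nat.pow_le_pow_right (by norm_num) Nat.lt_two_pow_self.le
  classical
  refine ⟨Nat.find hex, ?_, Nat.find_spec hex, ?_⟩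
  · by_contra h
    have h0 : Nat.find hex = 0 := by omega
    have h1 := Nat.find_spec hex
    rw [h0] at h1
    have h2 : 2 ^ 5 ≤ w ^ 5 := Nat.pow_le_pow_left hw 5
    norm_num at h1 h2
    omega
  · have h1 : 1 ≤ Nat.find hex := by
      by_contra h
      have h0 : Nat.find hex = 0 := by omega
      have h1 := Nat.find_spec hex
      rw [h0] at h1
      have h2 : 2 ^ 5 ≤ w ^ 5 := Nat.pow_le_pow_left hw 5
      norm_num at h1 h2
      omega
    exact not_lt.1 (Nat.find_min hex (m := Nat.find hex - 1) (by omega))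

end SIEVEaux

open SIEVEaux
open Pool.Agent.H410R2.ED (Pr CountCRT)
open Pool.Agent.H410R2.ED.T6

theorem t_SIEVE : S_SIEVE := by
  classical
  obtain ⟨c, hc1, v, hv0, hv1, hwb⟩ := Pool.Agent.H141R2.FS.wbhk 2 (by norm_num)
  obtain ⟨J0, hJ0⟩ := big_J v hv0
  refine ⟨10 * (2 * c + 1) + 1, 2 ^ 2 ^ J0 + 2, fun w hw H a t hH ht => ?_⟩
  have hw2 : 2 ≤ w := le_trans (Nat.le_add_left 2 _) hw
  obtain ⟨J, hJ1, hJw, hJw'⟩ := choose_J w hw2
  have hJJ0 : J0 ≤ J := by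
    by_contra h
    have h1 : 2 ^ 2 ^ J ≤ 2 ^ 2 ^ J0 :=
      Nat.pow_le_pow_right (by norm_num) (Nat.pow_le_pow_right (by norm_num) (by omega))
    have h2 : w ≤ w ^ 5 := Nat.le_self_pow (by norm_num) w
    omega
  set Z : ℕ := 2 ^ 2 ^ J with hZ
  have hZ10 : Z ≤ w ^ 10 := by
    have h1 : Z = 2 ^ 2 ^ (J - 1) * 2 ^ 2 ^ (J - 1) := by
      rw [hZ, ← pow_add, ← two_mul, ← pow_succ', Nat.sub_add_cancel hJ1]
    rw [h1]
    calc 2 ^ 2 ^ (J - 1) * 2 ^ 2 ^ (J - 1) ≤ w ^ 5 * w ^ 5 := Nat.mul_le_mul hJw' hJw'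
      _ = w ^ 10 := by rw [← pow_add]
  obtain ⟨r0, hr0, hco1, hco2⟩ := exists_r0 a t ht
  set N : ℕ := H / 6 with hN
  have hH12 : 12 ≤ H := by
    refine le_trans ?_ hH
    calc 12 ≤ 2 ^ 4 := by norm_num
      _ ≤ w ^ 4 := Nat.pow_le_pow_left hw2 4
      _ ≤ w ^ (10 * (2 * c + 1) + 1) := Nat.pow_le_pow_right (by omega) (by omega)
  have hN12 : H ≤ 12 * N := by omega
  -- the forms
  let A : Fin 2 → ℕ := fun _ => 6
  let Bf : Fin 2 → ℕ := ![a + r0, a + r0 + t]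
  have hAB : ∀ i, Nat.Coprime (A i) (Bf i) := by
    intro i
    fin_cases i
    · exact hco1
    · exact hco2
  have hPrp : ∀ l ∈ Pr 2 J, l.Prime := by
    intro l hl
    unfold Pr at hl
    exact (mem_filter.1 hl).2.1
  have hg : ∀ l, l.Prime → 2 * 2 < l → 0 ≤ (rr A Bf l : ℝ) / l ∧ (rr A Bf l : ℝ) / l ≤ ((2 : ℕ) : ℝ) / l := by
    intro l hl _
    refine ⟨by positivity, ?_⟩
    apply div_le_div_of_nonneg_right _ (Nat.cast_nonneg _)
    have := rr_le (a := A) (b := Bf) hl hAB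
    rw [Fintype.card_fin] at this
    exact_mod_cast this
  have hmain := hwb (fun l => (rr A Bf l : ℝ) / l) hg J (range N) (FF A Bf) (fun _ => 1) (N : ℝ)
    (fun D => (2 : ℝ) ^ D.card) (Nat.cast_nonneg _) (fun _ _ => zero_le_one)
    (fun D => by positivity) (by
      intro D hD _
      have h1 := hits_count Pool.Agent.H483R2.countCRT A Bf hAB D
        (fun l hl => hPrp l (hD hl)) 0 N
      rw [Fintype.card_fin, mul_one, zero_add, Nat.Ico_zero_eq_range] at h1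
      rw [sum_const, nsmul_eq_mul, mul_one]
      rw [Nat.cast_ofNat] at h1
      convert h1 using 3)
  rw [sum_const, nsmul_eq_mul, mul_one] at hmain
  -- the error
  have herr : ((J : ℝ) + 1) *
      ∑ D ∈ (Pr 2 J).powerset.filter (fun D => ∏ l ∈ D, l ≤ (2 ^ 2 ^ J) ^ c), (2 : ℝ) ^ D.card ≤
      (w : ℝ) ^ (10 * (2 * c + 1)) := by
    have h1 := err_sum (Pr 2 J) hPrp ((2 ^ 2 ^ J) ^ c)
    have h2 : (J : ℝ) + 1 ≤ (Z : ℝ) := by
      have h3 : J + 1 ≤ 2 ^ J := Nat.lt_two_pow_self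
      have h4 : 2 ^ J ≤ 2 ^ 2 ^ J := Nat.pow_le_pow_right (by norm_num) Nat.lt_two_pow_self.le
      have h5 : J + 1 ≤ Z := h3.trans h4
      exact_mod_cast h5
    calc _ ≤ (Z : ℝ) * ((((2 ^ 2 ^ J) ^ c : ℕ) : ℝ) * (((2 ^ 2 ^ J) ^ c : ℕ) : ℝ)) :=
          mul_le_mul h2 h1 (sum_nonneg fun _ _ => by positivity) (Nat.cast_nonneg _)
      _ = (Z : ℝ) ^ (2 * c + 1) := by
          rw [hZ]; push_cast; ring
      _ ≤ ((w ^ 10 : ℕ) : ℝ) ^ (2 * c + 1) :=
          pow_le_pow_left₀ (Nat.cast_nonneg _) (by exact_mod_cast hZ10) _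
      _ = (w : ℝ) ^ (10 * (2 * c + 1)) := by
          push_cast; rw [← pow_mul]
  -- the main term
  have hw0 : (0 : ℝ) < w := by exact_mod_cast (by omega : 0 < w)
  have hvJ : 48 ≤ v ^ J * w := by
    have h1 := hJ0 J hJJ0 hJ1
    have h2 : (48 : ℝ) ^ 5 ≤ (v ^ J * w) ^ 5 := by
      refine h1.trans ?_
      rw [mul_pow, ← pow_mul, ← pow_mul, mul_comm 5 J]
      apply mul_le_mul_of_nonneg_left _ (by positivity)
      exact_mod_cast hJw'
    exact le_of_pow_le_pow_left₀ (by norm_num) (by positivity) h2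
  have hmt : 2 * (H : ℝ) / w ≤ (N : ℝ) / 2 * v ^ J := by
    rw [div_le_iff₀ hw0]
    have h3 : (H : ℝ) ≤ 12 * N := by exact_mod_cast hN12
    have h4 : (0 : ℝ) ≤ N := Nat.cast_nonneg _
    nlinarith
  have hHw : (w : ℝ) ^ (10 * (2 * c + 1)) ≤ (H : ℝ) / w := by
    rw [le_div_iff₀ hw0, ← pow_succ]
    exact_mod_cast hH
  have hfin : (H : ℝ) / w ≤ (((range N).filter (fun n => ∀ l ∈ Pr 2 J, ¬ l ∣ FF A Bf n)).card : ℝ) := by
    have h5 : 2 * (H : ℝ) / w = H / w + H / w := by ring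
    linarith
  -- injection
  have hinj : ((range N).filter (fun n => ∀ l ∈ Pr 2 J, ¬ l ∣ FF A Bf n)).card ≤
      ((range H).filter (fun u => ∀ p ∈ (range (w ^ 5 + 1)).filter Nat.Prime,
        ¬ p ∣ a + u ∧ ¬ p ∣ a + u + t)).card := by
    refine card_le_card_of_injOn (fun n => r0 + 6 * n) ?_ ?_
    · intro n hn
      rw [mem_coe, mem_filter, mem_range] at hn
      refine mem_coe.2 ((@Finset.mem_filter ℕ _ (_) _ _).2
        ⟨mem_range.2 (show r0 + 6 * n < H by omega), fun p hp => ?_⟩)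
      change ¬ p ∣ a + (r0 + 6 * n) ∧ ¬ p ∣ a + (r0 + 6 * n) + t
      rw [mem_filter, mem_range] at hp
      obtain ⟨hp1, hp2⟩ := hp
      have e0 : A 0 * n + Bf 0 = a + (r0 + 6 * n) := by
        change 6 * n + (a + r0) = _
        ring
      have e1 : A 1 * n + Bf 1 = a + (r0 + 6 * n) + t := by
        change 6 * n + (a + r0 + t) = _
        ring
      by_cases hp4 : 4 < p
      · have hpPr : p ∈ Pr 2 J := by
          unfold Pr
          rw [mem_filter, mem_range]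
          exact ⟨by omega, hp2, by omega⟩
        have h1 := hn.2 p hpPr
        rw [prime_dvd_FF hp2] at h1
        push Not at h1
        exact ⟨by rw [← e0]; exact h1 0, by rw [← e1]; exact h1 1⟩
      · have hp6 : p ∣ 6 := by
          have h2 := hp2.two_le
          have : p = 2 ∨ p = 3 ∨ p = 4 := by omega
          rcases this with rfl | rfl | rfl
          · norm_num
          · norm_num
          · exact absurd hp2 (by norm_num)
        constructor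
        · intro h
          have h1 : p ∣ a + r0 := by
            have : a + (r0 + 6 * n) = 6 * n + (a + r0) := by ring
            rw [this] at h
            exact (Nat.dvd_add_right (hp6.mul_right n)).1 h
          have h2 := Nat.dvd_gcd hp6 h1
          rw [hco1] at h2
          exact hp2.one_lt.ne' (Nat.dvd_one.1 h2)
        · intro h
          have h1 : p ∣ a + r0 + t := by
            have : a + (r0 + 6 * n) + t = 6 * n + (a + r0 + t) := by ring
            rw [this] at h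
            exact (Nat.dvd_add_right (hp6.mul_right n)).1 h
          have h2 := Nat.dvd_gcd hp6 h1
          rw [hco2] at h2
          exact hp2.one_lt.ne' (Nat.dvd_one.1 h2)
    · intro n _ n' _ h
      simp only at h
      omega
  have hfin2 : (H : ℝ) ≤ w * (((range H).filter (fun u => ∀ p ∈ (range (w ^ 5 + 1)).filter Nat.Prime,
        ¬ p ∣ a + u ∧ ¬ p ∣ a + u + t)).card : ℝ) := by
    rw [div_le_iff₀ hw0] at hfin
    have h6 : (((range N).filter (fun n => ∀ l ∈ Pr 2 J, ¬ l ∣ FF A Bf n)).card : ℝ) ≤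
      (((range H).filter (fun u => ∀ p ∈ (range (w ^ 5 + 1)).filter Nat.Prime,
        ¬ p ∣ a + u ∧ ¬ p ∣ a + u + t)).card : ℝ) := by exact_mod_cast hinj
    calc (H : ℝ) ≤ _ := hfin
      _ ≤ (((range H).filter (fun u => ∀ p ∈ (range (w ^ 5 + 1)).filter Nat.Prime,
        ¬ p ∣ a + u ∧ ¬ p ∣ a + u + t)).card : ℝ) * w := mul_le_mul_of_nonneg_right h6 hw0.le
      _ = _ := mul_comm _ _
  have hfin3 : H ≤ w * ((range H).filter (fun u => ∀ p ∈ (range (w ^ 5 + 1)).filter Nat.Prime,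
        ¬ p ∣ a + u ∧ ¬ p ∣ a + u + t)).card := by exact_mod_cast hfin2
  convert hfin3 using 3

end Pool.Agent.H461R2.GP
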